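import Pool.Agent.D0H24.IP.Fin

/-!
# Counting representations
-/

set_option autoImplicit false

namespace Pool.Agent.D0H24.IP

open MeasureTheory ProbabilityTheory Finset Filter
open Pool.Agent.D0H24.SR (Fil Fil_mono)
open scoped ENNReal

set_option linter.unusedSectionVars false
set_option linter.unusedVariables false

/-- The `x`-th smallest element of `A`, for `x ≥ 1`. -/
noncomputable def elem (A : Set ℕ) (x : ℕ) : ℕ := Nat.nth (fun m => m ∈ A) (x - 1)

/-- The `(i+1)`-fold iterate of `elem A` at `x`. -/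
noncomputable def ip (A : Set ℕ) (i x : ℕ) : ℕ := (elem A)^[i + 1] x

/-- The number of pairs `(x, y)` of positive integers for which `ip A a x` and `ip A b y` are
distinct and have the sum `N`. -/
noncomputable def R (A : Set ℕ) (a b N : ℕ) : ℕ :=
  {p : ℕ × ℕ | 1 ≤ p.1 ∧ 1 ≤ p.2 ∧ ip A a p.1 ≠ ip A b p.2 ∧ ip A a p.1 + ip A b p.2 = N}.ncard

section det

variable {A : Set ℕ}

lemma elem_ge (h0 : 0 ∉ A) (hinf : A.Infinite) (x : ℕ) (hx : 1 ≤ x) : x ≤ elem A x := by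
  have hinf' : (Set.ofPred fun m => m ∈ A).Infinite := hinf
  have hmono := Nat.nth_strictMono hinf'
  have h1 : ∀ n, n + 1 ≤ Nat.nth (fun m => m ∈ A) n := by
    intro n
    induction n with
    | zero =>
      have h2 : Nat.nth (fun m => m ∈ A) 0 ∈ A := Nat.nth_mem_of_infinite hinf' 0
      by_contra hc
      have h3 : Nat.nth (fun m => m ∈ A) 0 = 0 := by omega
      rw [h3] at h2
      exact h0 h2
    | succ n ih =>
      have h3 : Nat.nth (fun m => m ∈ A) n < Nat.nth (fun m => m ∈ A) (n + 1) := hmono (Nat.lt_succ_self n)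
      omega
  unfold elem
  have := h1 (x - 1)
  omega

lemma iter_ge (h0 : 0 ∉ A) (hinf : A.Infinite) (i x : ℕ) (hx : 1 ≤ x) : x ≤ (elem A)^[i] x := by
  induction i with
  | zero => exact le_rfl
  | succ i ih =>
    rw [Function.iterate_succ_apply']
    exact ih.trans (elem_ge h0 hinf _ (hx.trans ih))

lemma R_finite (h0 : 0 ∉ A) (hinf : A.Infinite) (a b N : ℕ) :
    {p : ℕ × ℕ | 1 ≤ p.1 ∧ 1 ≤ p.2 ∧ ip A a p.1 ≠ ip A b p.2 ∧ ip A a p.1 + ip A b p.2 = N}.Finite := by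
  apply ((Set.finite_Iic N).prod (Set.finite_Iic N)).subset
  rintro ⟨x, y⟩ ⟨hx, hy, -, h⟩
  simp only at hx hy h
  have h1 := iter_ge h0 hinf (a + 1) x hx
  have h2 := iter_ge h0 hinf (b + 1) y hy
  unfold ip at h
  rw [Set.mem_prod, Set.mem_Iic, Set.mem_Iic]
  exact ⟨by omega, by omega⟩

end det

variable {Ω : Type*} [m0 : MeasurableSpace Ω] {P : Measure Ω} {ξ : ℕ → Ω → ℕ}

open Classical in
lemma S_count (h : Ber P ξ) (A : Set ℕ) (ω : Ω) (hA : ∀ m, m ∈ A ↔ ξ m ω = 1) (m : ℕ) :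
    S ξ m ω = Nat.count (fun j => j ∈ A) m := by
  rw [Nat.count_eq_card_filter_range, card_filter]
  unfold S X
  rw [Nat.Ico_zero_eq_range]
  apply sum_congr rfl
  intro i _
  have := h.le i ω
  by_cases hi : i ∈ A
  · rw [if_pos hi, (hA i).1 hi]
  · rw [if_neg hi]
    have h2 : ξ i ω ≠ 1 := fun hc => hi ((hA i).2 hc)
    omega

lemma B_iter (h : Ber P ξ) (A : Set ℕ) (ω : Ω) (hA : ∀ m, m ∈ A ↔ ξ m ω = 1) (i : ℕ) :
    ∀ m, 1 ≤ m → B ξ i m ω → ∃ x, 1 ≤ x ∧ (elem A)^[i] x = m := by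
  classical
  induction i with
  | zero =>
    intro m hm _
    exact ⟨m, hm, rfl⟩
  | succ i ih =>
    intro m hm hB
    obtain ⟨h1, h2⟩ := hB
    obtain ⟨x, hx, hx2⟩ := ih (S ξ m ω + 1) (by omega) h2
    refine ⟨x, hx, ?_⟩
    rw [Function.iterate_succ_apply', hx2]
    unfold elem
    rw [Nat.add_sub_cancel, S_count h A ω hA]
    exact Nat.nth_count (p := fun j => j ∈ A) ((hA m).2 h1)

/-- many windows with a solution give many solutions -/
lemma R_ge (h : Ber P ξ) (A : Set ℕ) (ω : Ω) (hA : ∀ m, m ∈ A ↔ ξ m ω = 1) (h0 : 0 ∉ A)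
    (hinf : A.Infinite) (a b N W : ℕ) (hW : 1 ≤ W)
    (hw : ∀ x, N < 2 * x → 4 * x ≤ 3 * N →
      ∃ t, x ≤ t ∧ t < x + W ∧ t < N ∧ B ξ (b + 1) t ω ∧ B ξ (a + 1) (N - t) ω) :
    N / (4 * W) ≤ R A a b N := by
  have hJ : 4 * W * (N / (4 * W)) ≤ N := Nat.mul_div_le N (4 * W)
  set J := N / (4 * W) with hJdef
  have h1 : ∀ j, ∃ p : ℕ × ℕ, j < J → (1 ≤ p.1 ∧ 1 ≤ p.2 ∧ ip A a p.1 ≠ ip A b p.2 ∧
      ip A a p.1 + ip A b p.2 = N) ∧ N / 2 + 1 + j * W ≤ ip A b p.2 ∧ ip A b p.2 < N / 2 + 1 + (j + 1) * W := by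
    intro j
    by_cases hj : j < J
    · have h2 : 4 * W * (j + 1) ≤ 4 * W * J := Nat.mul_le_mul_left _ hj
      have e1 : 4 * W * (j + 1) = 4 * (j * W) + 4 * W := by ring
      have e2 : (j + 1) * W = j * W + W := by ring
      obtain ⟨t, t1, t2, t3, t4, t5⟩ := hw (N / 2 + 1 + j * W) (by omega) (by omega)
      obtain ⟨x, hx, hx2⟩ := B_iter h A ω hA (a + 1) (N - t) (by omega) t5
      obtain ⟨y, hy, hy2⟩ := B_iter h A ω hA (b + 1) t (by omega) t4
      refine ⟨(x, y), fun _ => ?_⟩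
      unfold ip
      simp only
      rw [hx2, hy2]
      exact ⟨⟨hx, hy, by omega, by omega⟩, t1, by omega⟩
    · exact ⟨(0, 0), fun hc => absurd hc hj⟩
  choose f hf using h1
  have hinj : Set.InjOn f (range J : Set ℕ) := by
    intro j hj j' hj' hjj
    rw [coe_range, Set.mem_Iio] at hj hj'
    obtain ⟨-, a1, a2⟩ := hf j hj
    obtain ⟨-, b1, b2⟩ := hf j' hj'
    rw [hjj] at a1 a2
    by_contra hne
    rcases Nat.lt_or_gt_of_ne hne with hlt | hlt
    · have : (j + 1) * W ≤ j' * W := Nat.mul_le_mul_right _ hlt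
      omega
    · have : (j' + 1) * W ≤ j * W := Nat.mul_le_mul_right _ hlt
      omega
  have hcard : ((range J).image f).card = J := by
    rw [card_image_of_injOn hinj, card_range]
  rw [← hcard, ← Set.ncard_coe_finset]
  apply Set.ncard_le_ncard _ (R_finite h0 hinf a b N)
  intro p hp
  rw [coe_image, Set.mem_image] at hp
  obtain ⟨j, hj, rfl⟩ := hp
  rw [coe_range, Set.mem_Iio] at hj
  exact (hf j hj).1

lemma Lam_le_log (N : ℕ) (hN : 3 ≤ N) : (Lam N : ℝ) ≤ 3 * Real.log N := by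
  unfold Lam
  have hN0 : (0 : ℝ) < N := by
    have : 0 < N := by omega
    exact_mod_cast this
  have h1 : (2 : ℝ) ^ Nat.log 2 N ≤ N := by exact_mod_cast Nat.pow_log_le_self 2 (by omega)
  have h2 : (Nat.log 2 N : ℝ) * Real.log 2 ≤ Real.log N := by
    rw [← Real.log_pow]
    exact Real.log_le_log (by positivity) h1
  have h3 : 1 ≤ Real.log N := by
    rw [Real.le_log_iff_exp_le hN0]
    have h4 : (3 : ℝ) ≤ N := by exact_mod_cast hN
    linarith [Real.exp_one_lt_d9]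
  have h5 := Real.log_two_gt_d9
  have h6 : (0 : ℝ) ≤ Nat.log 2 N := Nat.cast_nonneg _
  push_cast
  nlinarith

lemma log_le_Lam (N : ℕ) (hN : 1 ≤ N) : Real.log N ≤ (Lam N : ℝ) := by
  have hN0 : (0 : ℝ) < N := by exact_mod_cast hN
  have h1 : (N : ℝ) ≤ 2 ^ Lam N := by exact_mod_cast (lt_two_pow_Lam N).le
  have h2 : Real.log N ≤ Lam N * Real.log 2 := by
    rw [← Real.log_pow]
    exact Real.log_le_log hN0 h1
  have h3 := Real.log_two_lt_d9
  have h4 : (0 : ℝ) ≤ Lam N := Nat.cast_nonneg _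
  nlinarith

lemma tendsto_log_nat : Tendsto (fun N : ℕ => Real.log N) atTop atTop :=
  Real.tendsto_log_atTop.comp tendsto_natCast_atTop_atTop

lemma asym (M : ℕ) : ∀ᶠ N : ℕ in atTop,
    (N : ℝ) / (Real.log N) ^ (M + 1) ≤ ((N / (4 * Lam N ^ M) : ℕ) : ℝ) := by
  filter_upwards [Lam_pow_le M 8, tendsto_log_nat.eventually_ge_atTop (8 * 3 ^ M), eventually_ge_atTop 3]
    with N h1 h2 h3
  have hN0 : (0 : ℝ) < N := by
    have : 0 < N := by omega
    exact_mod_cast this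
  have hlog : 0 < Real.log N := lt_of_lt_of_le (by positivity) h2
  have hL0 : (0 : ℝ) < Lam N := by exact_mod_cast Lam_pos N
  have h4 : (8 : ℝ) * (Lam N : ℝ) ^ M ≤ (Real.log N) ^ (M + 1) := by
    calc (8 : ℝ) * (Lam N : ℝ) ^ M ≤ 8 * (3 * Real.log N) ^ M :=
          mul_le_mul_of_nonneg_left (pow_le_pow_left₀ hL0.le (Lam_le_log N h3) M) (by norm_num)
      _ = (8 * 3 ^ M) * Real.log N ^ M := by rw [mul_pow]; ring
      _ ≤ Real.log N * Real.log N ^ M := mul_le_mul_of_nonneg_right h2 (by positivity)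
      _ = _ := by rw [pow_succ, mul_comm]
  have h5 : (8 : ℝ) * (Lam N : ℝ) ^ M ≤ N := by exact_mod_cast h1
  have h6 : (N : ℝ) / (4 * (Lam N : ℝ) ^ M) < ((N / (4 * Lam N ^ M) : ℕ) : ℝ) + 1 := by
    have := Nat.lt_floor_add_one ((N : ℝ) / ((4 * Lam N ^ M : ℕ) : ℝ))
    rw [Nat.floor_div_eq_div] at this
    push_cast at this
    exact this
  have h7 : (N : ℝ) / (8 * (Lam N : ℝ) ^ M) + 1 ≤ (N : ℝ) / (4 * (Lam N : ℝ) ^ M) := by
    have e : (N : ℝ) / (4 * (Lam N : ℝ) ^ M) =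
        (N : ℝ) / (8 * (Lam N : ℝ) ^ M) + (N : ℝ) / (8 * (Lam N : ℝ) ^ M) := by
      field_simp
      ring
    rw [e]
    have : 1 ≤ (N : ℝ) / (8 * (Lam N : ℝ) ^ M) := by
      rw [le_div_iff₀ (by positivity), one_mul]
      exact h5
    linarith
  have h8 : (N : ℝ) / (Real.log N) ^ (M + 1) ≤ (N : ℝ) / (8 * (Lam N : ℝ) ^ M) :=
    div_le_div_of_nonneg_left hN0.le (by positivity) h4
  linarith

/-- the theorem for variables with values `0` and `1` -/
theorem main_xi [IsProbabilityMeasure P] {q κ : ℕ} (hq : 1 ≤ q) (h : Mod P ξ q κ) (a b : ℕ) :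
    ∃ K, ∀ᵐ ω ∂P, ∃ L : ℕ, ∀ N : ℕ, L ≤ N → (Even N ∨ Odd q) →
      (N : ℝ) / (Real.log N) ^ K ≤ R {m | ξ m ω = 1} a b N := by
  obtain ⟨M, hM⟩ := pairs hq h a b
  refine ⟨M + 1, ?_⟩
  filter_upwards [hM, step hq h (cgap_zero (P := P) (ξ := ξ))] with ω h1 h2
  have hinf : {m | ξ m ω = 1}.Infinite := by
    rw [Set.infinite_iff_exists_gt]
    intro x
    obtain ⟨x₀, hx₀⟩ := eventually_atTop.1 h2
    obtain ⟨m, m1, -, -, m4⟩ := hx₀ (max (x + 1) x₀) (le_max_right _ _) 1 (Nat.coprime_one_left q)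
    have := le_max_left (x + 1) x₀
    exact ⟨m, m4.1, by omega⟩
  have h0 : 0 ∉ {m | ξ m ω = 1} := by
    rw [Set.mem_ofPred_eq, h.zero ω]
    norm_num
  obtain ⟨L₁, hL₁⟩ := eventually_atTop.1 h1
  obtain ⟨L₂, hL₂⟩ := eventually_atTop.1 (asym M)
  refine ⟨L₁ + L₂, fun N hN hpar => ?_⟩
  refine (hL₂ N (by omega)).trans ?_
  exact_mod_cast R_ge h.ber {m | ξ m ω = 1} ω (fun m => Iff.rfl) h0 hinf a b N (Lam N ^ M)
    (Nat.pow_pos (Lam_pos N)) (fun x hx1 hx2 => hL₁ N (by omega) hpar x hx1 hx2)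

/-- the theorem for events -/
theorem main_ev [IsProbabilityMeasure P] (E : ℕ → Set Ω) (hE : ∀ m, MeasurableSet (E m))
    (hind : iIndepSet E P) (q κ : ℕ) (hq : 1 ≤ q)
    (hsmall : Tendsto (fun m => P.real (E m)) atTop (nhds 0))
    (hlarge : ∀ᶠ m : ℕ in atTop, Nat.Coprime m q → 1 / (Real.log m) ^ κ ≤ P.real (E m)) (a b : ℕ) :
    ∃ K, ∀ᵐ ω ∂P, ∃ L : ℕ, ∀ N : ℕ, L ≤ N → (Even N ∨ Odd q) →
      (N : ℝ) / (Real.log N) ^ K ≤ R {m | 1 ≤ m ∧ ω ∈ E m} a b N := by
  classical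
  set ξ : ℕ → Ω → ℕ := fun m ω => if m = 0 then 0 else (E m).indicator (fun _ => 1) ω with hξ
  have hxi : ∀ m ω, ξ m ω = 1 ↔ 1 ≤ m ∧ ω ∈ E m := by
    intro m ω
    simp only [hξ]
    rcases Nat.eq_zero_or_pos m with hm | hm
    · rw [if_pos hm]
      constructor
      · intro hc
        exact absurd hc (by norm_num)
      · intro hc
        omega
    · rw [if_neg (by omega), Set.indicator_apply]
      split_ifs with hω
      · exact ⟨fun _ => ⟨hm, hω⟩, fun _ => rfl⟩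
      · exact ⟨fun hc => absurd hc (by norm_num), fun hc => absurd hc.2 hω⟩
  have hrho : ∀ m, 1 ≤ m → rho P ξ m = P.real (E m) := by
    intro m hm
    unfold rho
    congr 1
    ext ω
    rw [Set.mem_ofPred_eq, hxi]
    exact ⟨fun hc => hc.2, fun hc => ⟨hm, hc⟩⟩
  have hber : Ber P ξ := by
    refine ⟨?_, ?_, ?_⟩
    · intro m
      simp only [hξ]
      rcases Nat.eq_zero_or_pos m with hm | hm
      · simp only [hm, if_true]
        exact measurable_const
      · have : m ≠ 0 := by omega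
        simp only [this, if_false]
        exact measurable_const.indicator (hE m)
    · have h1 : iIndepFun (fun m => (E m).indicator fun _ => (1 : ℕ)) P := hind.iIndepFun_indicator
      have h2 := h1.comp (fun m => fun k : ℕ => if m = 0 then 0 else k) (fun m => Measurable.of_discrete)
      exact h2
    · intro m ω
      simp only [hξ]
      split_ifs
      · norm_num
      · rw [Set.indicator_apply]
        split_ifs <;> norm_num
  have hmod : Mod P ξ q κ := by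
    refine ⟨hber, ?_, ?_, ?_⟩
    · intro ω
      simp [hξ]
    · apply hsmall.congr'
      filter_upwards [eventually_ge_atTop 1] with m hm
      exact (hrho m hm).symm
    · filter_upwards [hlarge, eventually_ge_atTop 2] with m h1 h2 h3
      rw [hrho m (by omega)]
      refine le_trans ?_ (h1 h3)
      have h4 : 0 < Real.log m := Real.log_pos (by exact_mod_cast h2)
      exact one_div_le_one_div_of_le (by positivity)
        (pow_le_pow_left₀ h4.le (log_le_Lam m (by omega)) κ)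
  obtain ⟨K, hK⟩ := main_xi hq hmod a b
  refine ⟨K, ?_⟩
  filter_upwards [hK] with ω hω
  have e : {m | ξ m ω = 1} = {m | 1 ≤ m ∧ ω ∈ E m} := by
    ext m
    exact hxi m ω
  rw [e] at hω
  exact hω

end Pool.Agent.D0H24.IP
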