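import Pool.Agent.D0H24.IP.Iter

/-!
# Two iterated members with a given sum
-/

set_option autoImplicit false

namespace Pool.Agent.D0H24.IP

open MeasureTheory ProbabilityTheory Finset Filter
open Pool.Agent.D0H24.SR (Fil Fil_mono)
open scoped ENNReal

set_option linter.unusedSectionVars false
set_option linter.unusedVariables false

/-- residues without local obstruction -/
lemma res_good (q N : ℕ) (hq : 1 ≤ q) (hN : Even N ∨ Odd q) :
    ∃ r, Nat.Coprime r q ∧ ∀ m, m ≤ N → m % q = r % q → Nat.Coprime (N - m) q := by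
  set v := ∏ p ∈ q.primeFactors.filter (fun p => ¬ p ∣ N), p with hv
  have hpv : ∀ p, p.Prime → p ∣ q → (p ∣ v ↔ ¬ p ∣ N) := by
    intro p hp hpq
    constructor
    · intro h
      rw [hv, (Nat.Prime.prime hp).dvd_finsetProd_iff] at h
      obtain ⟨p', h1, h2⟩ := h
      rw [mem_filter, Nat.mem_primeFactors] at h1
      rw [(Nat.prime_dvd_prime_iff_eq hp h1.1.1).1 h2]
      exact h1.2
    · intro h
      apply dvd_prod_of_mem
      rw [mem_filter, Nat.mem_primeFactors]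
      exact ⟨⟨hp, hpq, by omega⟩, h⟩
  have key : ∀ p, p.Prime → p ∣ q → ¬ p ∣ N + v := by
    intro p hp hpq h
    by_cases h1 : p ∣ N
    · exact (hpv p hp hpq).1 ((Nat.dvd_add_right h1).1 h) h1
    · exact h1 ((Nat.dvd_add_left ((hpv p hp hpq).2 h1)).1 h)
  refine ⟨2 * N + v, ?_, ?_⟩
  · apply Nat.coprime_of_dvd
    intro p hp h h2
    by_cases h1 : p ∣ N
    · exact (hpv p hp h2).1 ((Nat.dvd_add_right (h1.mul_left 2)).1 h) h1
    · have h3 := (Nat.dvd_add_left ((hpv p hp h2).2 h1)).1 h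
      rcases (Nat.Prime.dvd_mul hp).1 h3 with h4 | h4
      · have h5 : p = 2 := (Nat.prime_dvd_prime_iff_eq hp Nat.prime_two).1 h4
        rw [h5] at h1 h2
        rcases hN with h6 | h6
        · exact h1 h6.two_dvd
        · exact (Nat.not_even_iff_odd.2 h6) (even_iff_two_dvd.2 h2)
      · exact h1 h4
  · intro m hm hr
    apply Nat.coprime_of_dvd
    intro p hp h h2
    have h3 : m ≡ 2 * N + v [MOD p] := Nat.ModEq.of_dvd h2 hr
    have h4 : N ≡ m [MOD p] := ((Nat.modEq_iff_dvd' hm).2 h).symm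
    have h5 : N + 0 ≡ N + (N + v) [MOD p] := by
      have e : N + (N + v) = 2 * N + v := by ring
      rw [e, add_zero]
      exact h4.trans h3
    have h6 : 0 ≡ N + v [MOD p] := Nat.ModEq.add_left_cancel' N h5
    exact key p hp h2 ((Nat.modEq_zero_iff_dvd).1 h6.symm)

variable {Ω : Type*} [m0 : MeasurableSpace Ω] {P : Measure Ω} {ξ : ℕ → Ω → ℕ}

/-- the condition on the times -/
def Qd (ξ : ℕ → Ω → ℕ) (q a r N x t : ℕ) (ω : Ω) : Prop :=
  x ≤ t ∧ (N - t) % q = r % q ∧ B ξ (a + 1) (N - t) ω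

open Classical in
/-- the times -/
noncomputable def Ds (ξ : ℕ → Ω → ℕ) (q a r N x : ℕ) (ω : Ω) : Finset ℕ :=
  (range N).filter (fun t => Qd ξ q a r N x t ω)

lemma mem_Ds {q a r N x t : ℕ} {ω : Ω} : t ∈ Ds ξ q a r N x ω ↔
    t < N ∧ x ≤ t ∧ (N - t) % q = r % q ∧ B ξ (a + 1) (N - t) ω := by
  classical
  unfold Ds
  rw [mem_filter, mem_range]
  rfl

lemma Ds_meas (h : Ber P ξ) (h0 : ∀ ω, ξ 0 ω = 0) (q a r N x : ℕ) (hx : N < 2 * x) (s : Finset ℕ) :
    MeasurableSet[Fil ξ x] {ω | Ds ξ q a r N x ω = s} := by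
  unfold Ds
  apply filter_meas
  intro t ht
  unfold Qd
  by_cases h1 : x ≤ t ∧ (N - t) % q = r % q
  · have e : {ω | x ≤ t ∧ (N - t) % q = r % q ∧ B ξ (a + 1) (N - t) ω} = {ω | B ξ (a + 1) (N - t) ω} := by
      ext ω
      simp only [Set.mem_ofPred_eq]
      exact ⟨fun h => h.2.2, fun h => ⟨h1.1, h1.2, h⟩⟩
    rw [e]
    exact Fil_mono (by omega) _ (B_meas h h0 (a + 1) (N - t))
  · have e : {ω | x ≤ t ∧ (N - t) % q = r % q ∧ B ξ (a + 1) (N - t) ω} = ∅ := by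
      ext ω
      simp only [Set.mem_ofPred_eq, Set.mem_empty_iff_false, iff_false]
      exact fun h => h1 ⟨h.1, h.2.1⟩
    rw [e]
    exact @MeasurableSet.empty Ω (Fil ξ x)

/-- two iterated members with the sum `N`, one of them in a prescribed short interval -/
theorem pairs [IsProbabilityMeasure P] {q κ : ℕ} (hq : 1 ≤ q) (h : Mod P ξ q κ) (a b : ℕ) :
    ∃ M, ∀ᵐ ω ∂P, ∀ᶠ N in atTop, (Even N ∨ Odd q) → ∀ x, N < 2 * x → 4 * x ≤ 3 * N →
      ∃ t, x ≤ t ∧ t < x + Lam N ^ M ∧ t < N ∧ B ξ (b + 1) t ω ∧ B ξ (a + 1) (N - t) ω := by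
  obtain ⟨Kb, _, _, hCb⟩ := gaps hq h b
  obtain ⟨Ka, hKa, hGa, _⟩ := gaps hq h (a + 1)
  obtain ⟨M, hM⟩ : ∃ M, M = 3 * Kb + 2 * Ka + 5 * (κ + 2) + 6 := ⟨_, rfl⟩
  refine ⟨M, ?_⟩
  have hres : ∀ N, ∃ r, (Even N ∨ Odd q) → Nat.Coprime r q ∧ ∀ m, m ≤ N → m % q = r % q →
      Nat.Coprime (N - m) q := by
    intro N
    by_cases hN : Even N ∨ Odd q
    · obtain ⟨r, hr⟩ := res_good q N hq hN
      exact ⟨r, fun _ => hr⟩
    · exact ⟨0, fun hc => absurd hc hN⟩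
  choose r hr using hres
  have hbad : ∀ᵐ ω ∂P, ∀ᶠ N in atTop,
      ω ∉ ⋃ x ∈ (range N).filter (fun x => N < 2 * x), Bad P ξ (Cs ξ b x) (Ds ξ q a (r N) N x) Kb Ka κ x := by
    apply bc _ (fun N : ℕ => 16 * (1 / (N : ℝ) ^ 3))
      ((Real.summable_one_div_nat_pow.2 (by norm_num)).mul_left 16) (fun n => by positivity)
    obtain ⟨X₀, hX₀⟩ := eventually_atTop.1 (bound hq h Kb Ka)
    filter_upwards [eventually_ge_atTop (2 * X₀ + 1)] with N hN
    have hN0 : (0 : ℝ) < N := by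
      have : 0 < N := by omega
      exact_mod_cast this
    have h1 : ∀ x ∈ (range N).filter (fun x => N < 2 * x),
        P (Bad P ξ (Cs ξ b x) (Ds ξ q a (r N) N x) Kb Ka κ x) ≤ ENNReal.ofReal (16 * (1 / (N : ℝ) ^ 4)) := by
      intro x hx
      rw [mem_filter, mem_range] at hx
      refine (hX₀ x (by omega) (Cs ξ b x) (Ds ξ q a (r N) N x) (Cs_meas h.ber h.zero b x)
        (Ds_meas h.ber h.zero q a (r N) N x hx.2)).trans ?_
      apply ENNReal.ofReal_le_ofReal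
      have h2 : (N : ℝ) ≤ 2 * x := by exact_mod_cast hx.2.le
      have hx0 : (0 : ℝ) < x := by linarith
      rw [mul_one_div, div_le_div_iff₀ (by positivity) (by positivity), one_mul]
      calc (N : ℝ) ^ 4 ≤ (2 * x) ^ 4 := pow_le_pow_left₀ hN0.le h2 4
        _ = _ := by ring
    refine (measure_biUnion_finset_le _ _).trans ((sum_le_sum h1).trans ?_)
    rw [sum_const, nsmul_eq_mul]
    have h3 : (((range N).filter (fun x => N < 2 * x)).card : ℝ≥0∞) ≤ N := by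
      have : ((range N).filter (fun x => N < 2 * x)).card ≤ N := by
        calc _ ≤ (range N).card := card_filter_le _ _
          _ = N := card_range N
      exact_mod_cast this
    calc _ ≤ (N : ℝ≥0∞) * ENNReal.ofReal (16 * (1 / (N : ℝ) ^ 4)) := mul_le_mul' h3 le_rfl
      _ = ENNReal.ofReal (N * (16 * (1 / (N : ℝ) ^ 4))) := by
          rw [ENNReal.ofReal_mul (Nat.cast_nonneg N), ENNReal.ofReal_natCast]
      _ ≤ _ := by
          apply ENNReal.ofReal_le_ofReal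
          apply le_of_eq
          field_simp
  filter_upwards [hbad, gd_one h.ber h.small hCb M, hGa] with ω h1 h2 h3
  obtain ⟨x₁, hx₁⟩ := eventually_atTop.1 h2
  obtain ⟨x₂, hx₂⟩ := eventually_atTop.1 h3
  obtain ⟨x₃, hx₃⟩ := eventually_atTop.1 (rho_low h)
  obtain ⟨x₄, hx₄⟩ := eventually_atTop.1 (Lam_pow_le (M + Ka) 32)
  obtain ⟨x₅, hx₅⟩ := eventually_atTop.1 (tendsto_Lam.eventually_ge_atTop 3)
  filter_upwards [h1, eventually_ge_atTop (8 * (x₁ + x₂ + x₃ + x₄ + x₅ + 1))] with N hN1 hN2 hpar x hx1 hx2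
  obtain ⟨hr1, hr2⟩ := hr N hpar
  have hbx : ω ∉ Bad P ξ (Cs ξ b x) (Ds ξ q a (r N) N x) Kb Ka κ x := by
    intro hc
    apply hN1
    rw [Set.mem_iUnion₂]
    refine ⟨x, ?_, hc⟩
    rw [mem_filter, mem_range]
    omega
  have hL3 := hx₅ x (by omega)
  have hLL : LL Kb Ka (κ + 2) x ≤ Lam x ^ M := by
    rw [hM]
    exact LL_le Kb Ka (κ + 2) x hL3
  have hP := hx₄ x (by omega)
  have hP1 : Lam x ^ M ≤ Lam x ^ (M + Ka) := Nat.pow_le_pow_right (Lam_pos x) (by omega)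
  have hP2 : Lam x ^ Ka ≤ Lam x ^ (M + Ka) := Nat.pow_le_pow_right (Lam_pos x) (by omega)
  have hP3 : 1 ≤ Lam x ^ Ka := Nat.pow_pos (Lam_pos x)
  have hG1 : ∀ z, S ξ x ω ≤ z → z ≤ S ξ x ω + LL Kb Ka (κ + 2) x →
      ∃ c ∈ Cs ξ b x ω, z < c ∧ c ≤ z + Lam x ^ Kb := fun z z1 z2 => hx₁ x (by omega) z z1 (by omega)
  have hG2 : ∀ y, x ≤ y → y < x + LL Kb Ka (κ + 2) x →
      ∃ t ∈ Ds ξ q a (r N) N x ω, y ≤ t ∧ t < y + Lam x ^ Ka ∧
        1 / (Lam x : ℝ) ^ (κ + 2) ≤ rho P ξ t := by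
    intro y y1 y2
    obtain ⟨x', hx'⟩ : ∃ x', x' + (y + Lam x ^ Ka) = N + 1 := ⟨N + 1 - (y + Lam x ^ Ka), by omega⟩
    obtain ⟨m, m1, m2, m3, m4⟩ := hx₂ x' (by omega) (r N) hr1
    have hLx : Lam x' ^ Ka ≤ Lam x ^ Ka := Nat.pow_le_pow_left (Lam_mono (by omega)) Ka
    have e1 : N - (N - m) = m := by omega
    have hm1 : m ≤ N := by omega
    refine ⟨N - m, ?_, by omega, by omega, ?_⟩
    · rw [mem_Ds, e1]
      exact ⟨by omega, by omega, m3, m4⟩
    · refine le_trans ?_ (hx₃ x (by omega) (N - m) (by omega) (by omega) (hr2 m hm1 m3))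
      apply one_div_le_one_div_of_le
      · have : (0 : ℝ) < Lam x := by exact_mod_cast Lam_pos x
        positivity
      · have : (1 : ℝ) ≤ Lam x := by exact_mod_cast Lam_pos x
        exact pow_le_pow_right₀ this (by omega)
  obtain ⟨t, t1, t2, t3, t4, t5⟩ := success hbx (Gd_mk hG1 hG2)
  have t3' := mem_Ds.1 t3
  have hLN : Lam x ^ M ≤ Lam N ^ M := Nat.pow_le_pow_left (Lam_mono (by omega)) M
  exact ⟨t, t1, by omega, t3'.1, ⟨t4, (mem_Cs.1 t5).2⟩, t3'.2.2.2⟩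

end Pool.Agent.D0H24.IP
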