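import Pool.Agent.D0H24.IP.Lln

/-!
# Iterated members
-/

set_option autoImplicit false

namespace Pool.Agent.D0H24.IP

open MeasureTheory ProbabilityTheory Finset Filter
open Pool.Agent.D0H24.SR (Fil Fil_mono)
open scoped ENNReal

set_option linter.unusedSectionVars false
set_option linter.unusedVariables false

variable {Ω : Type*} [m0 : MeasurableSpace Ω] {P : Measure Ω} {ξ : ℕ → Ω → ℕ}

/-- iterated members -/
def B (ξ : ℕ → Ω → ℕ) : ℕ → ℕ → Ω → Prop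
  | 0, _, _ => True
  | i + 1, m, ω => ξ m ω = 1 ∧ B ξ i (S ξ m ω + 1) ω

lemma S_lt (h : Ber P ξ) (h0 : ∀ ω, ξ 0 ω = 0) (m : ℕ) (hm : 1 ≤ m) (ω : Ω) : S ξ m ω + 1 ≤ m := by
  rw [S_split 1 m hm ω]
  have h1 : S ξ 1 ω = 0 := by
    unfold S X
    simp [h0]
  have h2 := X_le (P := P) h 1 m ω
  omega

lemma B_meas (h : Ber P ξ) (h0 : ∀ ω, ξ 0 ω = 0) (i : ℕ) :
    ∀ m, MeasurableSet[Fil ξ (m + 1)] {ω | B ξ i m ω} := by
  induction i with
  | zero =>
    intro m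
    have : {ω : Ω | B ξ 0 m ω} = Set.univ := by
      ext ω
      simp [B]
    rw [this]
    exact @MeasurableSet.univ Ω (Fil ξ (m + 1))
  | succ i ih =>
    intro m
    rcases Nat.eq_zero_or_pos m with hm | hm
    · have : {ω : Ω | B ξ (i + 1) m ω} = ∅ := by
        ext ω
        rw [Set.mem_ofPred_eq, Set.mem_empty_iff_false, iff_false, B, hm, h0 ω]
        intro hc
        exact absurd hc.1 (by norm_num)
      rw [this]
      exact @MeasurableSet.empty Ω (Fil ξ (m + 1))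
    · have e : {ω : Ω | B ξ (i + 1) m ω} =
          {ω | ξ m ω = 1} ∩ ⋃ s ∈ Set.Iio m, ({ω | S ξ m ω = s} ∩ {ω | B ξ i (s + 1) ω}) := by
        ext ω
        simp only [B, Set.mem_ofPred_eq, Set.mem_inter_iff, Set.mem_iUnion, Set.mem_Iio, exists_prop]
        constructor
        · rintro ⟨a, b⟩
          have := S_lt h h0 m hm ω
          exact ⟨a, S ξ m ω, by omega, rfl, b⟩
        · rintro ⟨a, s, _, rfl, b⟩
          exact ⟨a, b⟩
      rw [e]
      apply MeasurableSet.inter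
      · exact xi_Fil (Nat.lt_succ_self m) (measurableSet_singleton 1)
      · apply MeasurableSet.biUnion (Set.to_countable _)
        intro s hs
        rw [Set.mem_Iio] at hs
        apply MeasurableSet.inter
        · have h1 : Measurable[Fil ξ (m + 1)] (S ξ m) :=
            X_Fil (m + 1) (Ico 0 m) (fun j hj => (mem_Ico.1 hj).2.trans (Nat.lt_succ_self m))
          exact h1 (measurableSet_singleton s)
        · exact Fil_mono (by omega) _ (ih (s + 1))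

open Classical in
lemma filter_meas (m : MeasurableSpace Ω) (n : ℕ) (Q : ℕ → Ω → Prop)
    (hQ : ∀ c < n, MeasurableSet[m] {ω | Q c ω}) (s : Finset ℕ) :
    MeasurableSet[m] {ω | (range n).filter (fun c => Q c ω) = s} := by
  by_cases hs : s ⊆ range n
  · have e : {ω | (range n).filter (fun c => Q c ω) = s} =
        ⋂ c ∈ Set.Iio n, {ω | Q c ω ↔ c ∈ s} := by
      ext ω
      simp only [Set.mem_ofPred_eq, Set.mem_iInter, Set.mem_Iio]
      constructor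
      · intro hω c hc
        rw [← hω, mem_filter, mem_range]
        exact ⟨fun a => ⟨hc, a⟩, fun a => a.2⟩
      · intro hω
        ext c
        rw [mem_filter, mem_range]
        constructor
        · rintro ⟨a, b⟩
          exact (hω c a).1 b
        · intro a
          have := mem_range.1 (hs a)
          exact ⟨this, (hω c this).2 a⟩
    rw [e]
    apply MeasurableSet.biInter (Set.to_countable _)
    intro c hc
    by_cases hcs : c ∈ s
    · simp only [hcs, iff_true]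
      exact hQ c hc
    · simp only [hcs, iff_false]
      exact (hQ c hc).compl
  · have e : {ω | (range n).filter (fun c => Q c ω) = s} = ∅ := by
      ext ω
      rw [Set.mem_ofPred_eq, Set.mem_empty_iff_false, iff_false]
      rintro rfl
      exact hs (filter_subset _ _)
    rw [e]
    exact @MeasurableSet.empty Ω m

/-- the gaps of the iterated members in residue classes are short -/
def Gap (P : Measure Ω) (ξ : ℕ → Ω → ℕ) (q i K : ℕ) : Prop :=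
  ∀ᵐ ω ∂P, ∀ᶠ x in atTop, ∀ r, Nat.Coprime r q →
    ∃ m, x ≤ m ∧ m < x + Lam x ^ K ∧ m % q = r % q ∧ B ξ i m ω

lemma res_exists (q : ℕ) (hq : 1 ≤ q) (x r : ℕ) : ∃ m, x ≤ m ∧ m < x + q ∧ m % q = r % q := by
  refine ⟨x + (r + (q - 1) * x) % q, Nat.le_add_right _ _, ?_, ?_⟩
  · have := Nat.mod_lt (r + (q - 1) * x) hq
    omega
  · rw [Nat.add_mod_mod]
    obtain ⟨q', rfl⟩ : ∃ q', q = q' + 1 := ⟨q - 1, by omega⟩
    have : x + (r + (q' + 1 - 1) * x) = r + x * (q' + 1) := by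
      rw [Nat.add_sub_cancel]
      ring
    rw [this, Nat.add_mul_mod_self_right]

lemma gap_zero (q : ℕ) (hq : 1 ≤ q) : Gap P ξ q 0 1 := by
  apply Eventually.of_forall
  intro ω
  filter_upwards [tendsto_Lam.eventually_ge_atTop q] with x hx r _
  obtain ⟨m, h1, h2, h3⟩ := res_exists q hq x r
  refine ⟨m, h1, ?_, h3, trivial⟩
  rw [pow_one]
  omega

lemma coprime_mod {r q m : ℕ} (h : m % q = r % q) (hr : Nat.Coprime r q) : Nat.Coprime m q := by
  have h1 : Nat.gcd m q = Nat.gcd r q := Nat.ModEq.gcd_eq h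
  unfold Nat.Coprime at hr ⊢
  rw [h1, hr]

/-- the Borel-Cantelli lemma -/
lemma bc (E : ℕ → Set Ω) (u : ℕ → ℝ) (hu : Summable u) (hu0 : ∀ n, 0 ≤ u n)
    (h : ∀ᶠ n in atTop, P (E n) ≤ ENNReal.ofReal (u n)) : ∀ᵐ ω ∂P, ∀ᶠ n in atTop, ω ∉ E n := by
  obtain ⟨n₀, hn₀⟩ := eventually_atTop.1 h
  have h1 : ∑' n, P (E (n + n₀)) ≠ ∞ := by
    refine ne_top_of_le_ne_top ?_ (ENNReal.tsum_le_tsum fun n => hn₀ (n + n₀) (by omega))
    rw [← ENNReal.ofReal_tsum_of_nonneg (fun n => hu0 _) ((summable_nat_add_iff n₀).2 hu)]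
    exact ENNReal.ofReal_ne_top
  filter_upwards [ae_eventually_notMem h1] with ω hω
  obtain ⟨N, hN⟩ := eventually_atTop.1 hω
  refine eventually_atTop.2 ⟨N + n₀, fun n hn => ?_⟩
  have h2 := hN (n - n₀) (by omega)
  rw [Nat.sub_add_cancel (by omega)] at h2
  exact h2

/-- failure in spite of short gaps -/
def Bad (P : Measure Ω) (ξ : ℕ → Ω → ℕ) (C D : Ω → Finset ℕ) (a b κ x : ℕ) : Set Ω :=
  Gd P ξ C D x (LL a b (κ + 2) x) (Lam x ^ a) (Lam x ^ b) (1 / (Lam x : ℝ) ^ (κ + 2)) ∩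
    NS ξ C D x (x + LL a b (κ + 2) x)

lemma Gd_mk {C D : Ω → Finset ℕ} {x L HC HD : ℕ} {lam : ℝ} {ω : Ω}
    (h1 : ∀ z, S ξ x ω ≤ z → z ≤ S ξ x ω + L → ∃ c ∈ C ω, z < c ∧ c ≤ z + HC)
    (h2 : ∀ y, x ≤ y → y < x + L → ∃ t ∈ D ω, y ≤ t ∧ t < y + HD ∧ lam ≤ rho P ξ t) :
    ω ∈ Gd P ξ C D x L HC HD lam := ⟨h1, h2⟩

lemma success {C D : Ω → Finset ℕ} {a b κ x : ℕ} {ω : Ω} (hω : ω ∉ Bad P ξ C D a b κ x)
    (hG : ω ∈ Gd P ξ C D x (LL a b (κ + 2) x) (Lam x ^ a) (Lam x ^ b) (1 / (Lam x : ℝ) ^ (κ + 2))) :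
    ∃ t, x ≤ t ∧ t < x + LL a b (κ + 2) x ∧ t ∈ D ω ∧ ξ t ω = 1 ∧ S ξ t ω + 1 ∈ C ω := by
  by_contra hc
  push Not at hc
  apply hω
  refine ⟨hG, ?_⟩
  intro t h1 h2 h3
  exact hc t h1 h2 h3.1 h3.2.1 h3.2.2

open Classical in
/-- the indices -/
noncomputable def Cs (ξ : ℕ → Ω → ℕ) (i x : ℕ) (ω : Ω) : Finset ℕ := (range x).filter (fun c => B ξ i c ω)

lemma mem_Cs {i x c : ℕ} {ω : Ω} : c ∈ Cs ξ i x ω ↔ c < x ∧ B ξ i c ω := by
  classical
  unfold Cs
  rw [mem_filter, mem_range]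

lemma Cs_meas (h : Ber P ξ) (h0 : ∀ ω, ξ 0 ω = 0) (i x : ℕ) (s : Finset ℕ) :
    MeasurableSet[Fil ξ x] {ω | Cs ξ i x ω = s} := by
  unfold Cs
  apply filter_meas
  intro c hc
  exact Fil_mono (by omega) _ (B_meas h h0 i c)

/-- short gaps between the indices -/
def CGap (P : Measure Ω) (ξ : ℕ → Ω → ℕ) (i K : ℕ) : Prop :=
  ∀ᵐ ω ∂P, ∀ᶠ x in atTop, ∀ z, S ξ x ω ≤ z → 2 * z ≤ x → ∃ c, z < c ∧ c ≤ z + Lam x ^ K ∧ B ξ i c ω

lemma cgap_zero : CGap P ξ 0 1 := by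
  apply Eventually.of_forall
  intro ω
  apply Eventually.of_forall
  intro x z _ _
  refine ⟨z + 1, by omega, ?_, trivial⟩
  have := Lam_pos x
  rw [pow_one]
  omega

/-- the first condition on gaps -/
lemma gd_one [IsProbabilityMeasure P] (h : Ber P ξ) (hs : Tendsto (fun i => rho P ξ i) atTop (nhds 0))
    {i K : ℕ} (hC : CGap P ξ i K) (M : ℕ) :
    ∀ᵐ ω ∂P, ∀ᶠ x in atTop, ∀ z, S ξ x ω ≤ z → z ≤ S ξ x ω + Lam x ^ M →
      ∃ c ∈ Cs ξ i x ω, z < c ∧ c ≤ z + Lam x ^ K := by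
  filter_upwards [hC, S_small h hs] with ω hω hS
  filter_upwards [hω, hS, Lam_pow_le (M + K) 8, eventually_ge_atTop 1] with x h1 h2 h3 h4 z h5 h6
  have h7 : Lam x ^ M ≤ Lam x ^ (M + K) := Nat.pow_le_pow_right (Lam_pos x) (by omega)
  have h8 : Lam x ^ K ≤ Lam x ^ (M + K) := Nat.pow_le_pow_right (Lam_pos x) (by omega)
  obtain ⟨c, c1, c2, c3⟩ := h1 z h5 (by omega)
  exact ⟨c, mem_Cs.2 ⟨by omega, c3⟩, c1, c2⟩

/-- one more iteration -/
theorem step [IsProbabilityMeasure P] {q κ : ℕ} (hq : 1 ≤ q) (h : Mod P ξ q κ) {i K : ℕ} (hC : CGap P ξ i K) :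
    Gap P ξ q (i + 1) (3 * K + 2 * 1 + 5 * (κ + 2) + 6) := by
  obtain ⟨M, hM⟩ : ∃ M, M = 3 * K + 2 * 1 + 5 * (κ + 2) + 6 := ⟨_, rfl⟩
  rw [← hM]
  have hbad : ∀ r : ℕ, ∀ᵐ ω ∂P, ∀ᶠ x in atTop,
      ω ∉ Bad P ξ (Cs ξ i x) (fun _ => (range (2 * x)).filter (fun t => t % q = r % q)) K 1 κ x := by
    intro r
    apply bc _ (fun x => 1 / (x : ℝ) ^ 4) (Real.summable_one_div_nat_pow.2 (by norm_num))
      (fun n => by positivity)
    filter_upwards [bound hq h K 1] with x hx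
    apply hx
    · exact Cs_meas h.ber h.zero i x
    · intro s
      exact MeasurableSet.const _
  have hbad' : ∀ᵐ ω ∂P, ∀ r : ℕ, ∀ᶠ x in atTop,
      ω ∉ Bad P ξ (Cs ξ i x) (fun _ => (range (2 * x)).filter (fun t => t % q = r % q)) K 1 κ x :=
    ae_all_iff.2 hbad
  filter_upwards [hbad', gd_one h.ber h.small hC M] with ω hω hg1
  have hω2 : ∀ᶠ x in atTop, ∀ r ∈ range q,
      ω ∉ Bad P ξ (Cs ξ i x) (fun _ => (range (2 * x)).filter (fun t => t % q = r % q)) K 1 κ x :=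
    (eventually_all_finset (range q)).2 fun r _ => hω r
  filter_upwards [hω2, hg1, rho_low h, Lam_pow_le M 4, tendsto_Lam.eventually_ge_atTop (q + 3)]
    with x h1 h2 h3 h4 h5 r hr
  have hLL : LL K 1 (κ + 2) x ≤ Lam x ^ M := by
    rw [hM]
    exact LL_le K 1 (κ + 2) x (by omega)
  have hLM : Lam x ≤ Lam x ^ M := Nat.le_self_pow (by omega) _
  have hmod : (r % q) % q = r % q := Nat.mod_mod _ _
  have h6 := h1 (r % q) (mem_range.2 (Nat.mod_lt r hq))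
  have hG1 : ∀ z, S ξ x ω ≤ z → z ≤ S ξ x ω + LL K 1 (κ + 2) x →
      ∃ c ∈ Cs ξ i x ω, z < c ∧ c ≤ z + Lam x ^ K := fun z z1 z2 => h2 z z1 (by omega)
  have hG2 : ∀ y, x ≤ y → y < x + LL K 1 (κ + 2) x →
      ∃ t ∈ (range (2 * x)).filter (fun t => t % q = (r % q) % q), y ≤ t ∧ t < y + Lam x ^ 1 ∧
        1 / (Lam x : ℝ) ^ (κ + 2) ≤ rho P ξ t := by
    intro y y1 y2
    obtain ⟨t, t1, t2, t3⟩ := res_exists q hq y r
    have t4 : t < 2 * x := by omega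
    refine ⟨t, ?_, t1, ?_, ?_⟩
    · rw [mem_filter, mem_range, hmod]
      exact ⟨t4, t3⟩
    · rw [pow_one]
      omega
    · refine le_trans ?_ (h3 t (by omega) (by omega) (coprime_mod t3 hr))
      apply one_div_le_one_div_of_le
      · have : (0 : ℝ) < Lam x := by exact_mod_cast Lam_pos x
        positivity
      · have : (1 : ℝ) ≤ Lam x := by exact_mod_cast Lam_pos x
        exact pow_le_pow_right₀ this (by omega)
  obtain ⟨t, t1, t2, t3, t4, t5⟩ := success h6 (Gd_mk hG1 hG2)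
  rw [mem_filter, mem_range, hmod] at t3
  exact ⟨t, t1, by omega, t3.2, t4, (mem_Cs.1 t5).2⟩

/-- the walk tends to infinity -/
lemma S_tendsto [IsProbabilityMeasure P] {q κ : ℕ} (hq : 1 ≤ q) (h : Mod P ξ q κ) :
    ∀ᵐ ω ∂P, ∀ n : ℕ, ∀ᶠ x in atTop, n ≤ S ξ x ω := by
  filter_upwards [step hq h (cgap_zero (P := P) (ξ := ξ))] with ω hω
  have h1 : ∀ x, ∃ m, x ≤ m ∧ ξ m ω = 1 := by
    intro x
    obtain ⟨x₀, hx₀⟩ := eventually_atTop.1 hω
    obtain ⟨m, m1, -, -, m4⟩ := hx₀ (max x x₀) (le_max_right _ _) 1 (Nat.coprime_one_left q)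
    exact ⟨m, (le_max_left _ _).trans m1, m4.1⟩
  intro n
  induction n with
  | zero => exact Eventually.of_forall fun x => Nat.zero_le _
  | succ n ih =>
    obtain ⟨x₀, hx₀⟩ := eventually_atTop.1 ih
    obtain ⟨m, m1, m2⟩ := h1 x₀
    refine eventually_atTop.2 ⟨m + 1, fun x hx => ?_⟩
    have h2 := hx₀ m m1
    rw [S_split m x (by omega) ω]
    have h3 : 1 ≤ X ξ (Ico m x) ω := by
      unfold X
      rw [← m2]
      exact single_le_sum (f := fun i => ξ i ω) (fun i _ => Nat.zero_le _) (mem_Ico.2 ⟨le_rfl, by omega⟩)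
    omega

lemma cgap_of_gap [IsProbabilityMeasure P] {q κ : ℕ} (hq : 1 ≤ q) (h : Mod P ξ q κ) {i K : ℕ}
    (hG : Gap P ξ q i K) : CGap P ξ i K := by
  filter_upwards [hG, S_tendsto hq h] with ω h1 h2
  obtain ⟨x₀, hx₀⟩ := eventually_atTop.1 h1
  filter_upwards [h2 x₀, eventually_ge_atTop 2] with x h3 hx2 z hz1 hz2
  obtain ⟨c, c1, c2, -, c4⟩ := hx₀ (z + 1) (by omega) 1 (Nat.coprime_one_left q)
  refine ⟨c, by omega, ?_, c4⟩
  have h4 : Lam (z + 1) ^ K ≤ Lam x ^ K := Nat.pow_le_pow_left (Lam_mono (by omega)) K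
  omega

/-- all the iterates -/
theorem gaps [IsProbabilityMeasure P] {q κ : ℕ} (hq : 1 ≤ q) (h : Mod P ξ q κ) (i : ℕ) :
    ∃ K, 1 ≤ K ∧ Gap P ξ q i K ∧ CGap P ξ i K := by
  induction i with
  | zero => exact ⟨1, le_rfl, gap_zero q hq, cgap_zero⟩
  | succ i ih =>
    obtain ⟨K, _, _, hK⟩ := ih
    have h1 := step hq h hK
    exact ⟨_, by omega, h1, cgap_of_gap hq h h1⟩

end Pool.Agent.D0H24.IP
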