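import Pool.Agent.D0H24.IP.Par
import Pool.Agent.D0H24.SR.Az

/-!
# The walk is much smaller than the time
-/

set_option autoImplicit false

namespace Pool.Agent.D0H24.IP

open MeasureTheory ProbabilityTheory Finset Filter
open Pool.Agent.D0H24.SR (Fil Fil_mono conc)
open scoped ENNReal

set_option linter.unusedSectionVars false
set_option linter.unusedVariables false

variable {Ω : Type*} [m0 : MeasurableSpace Ω] {P : Measure Ω} {ξ : ℕ → Ω → ℕ}

/-- centred variables -/
noncomputable def Zx (P : Measure Ω) (ξ : ℕ → Ω → ℕ) (n : ℕ) (ω : Ω) : ℝ :=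
  if 1 ≤ n then (ξ (n - 1) ω : ℝ) - rho P ξ (n - 1) else 0

lemma Zx_sum (x : ℕ) (ω : Ω) :
    ∑ n ∈ range (x + 1), Zx P ξ n ω = (S ξ x ω : ℝ) - ∑ m ∈ range x, rho P ξ m := by
  rw [sum_range_succ']
  unfold Zx S X
  simp only [le_add_iff_nonneg_left, zero_le, if_true, Nat.add_sub_cancel]
  rw [sum_sub_distrib]
  simp

lemma orth [IsProbabilityMeasure P] (h : Ber P ξ) (n : ℕ) (G : Ω → ℝ) (hG : Measurable[Fil ξ n] G) :
    ∫ ω, G ω * ((ξ n ω : ℝ) - rho P ξ n) ∂P = 0 := by
  have hm : Measurable (fun ω => (ξ n ω : ℝ) - rho P ξ n) := (xi_meas h n).sub_const _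
  have hGm : Measurable G := hG.mono (Fil_le' h n) le_rfl
  have hFm : Measurable[Fut ξ n] (fun ω => (ξ n ω : ℝ) - rho P ξ n) :=
    (Measurable.of_discrete (f := fun k : ℕ => (k : ℝ) - rho P ξ n)).comp (xi_Fut le_rfl)
  have hind : IndepFun G (fun ω => (ξ n ω : ℝ) - rho P ξ n) P := by
    rw [IndepFun_iff_Indep]
    exact indep_of_indep_of_le_left (indep_of_indep_of_le_right (past_fut h n) hFm.comap_le) hG.comap_le
  have h1 := hind.integral_fun_mul_eq_mul_integral hGm.aestronglyMeasurable hm.aestronglyMeasurable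
  rw [h1]
  have h2 : ∫ ω, ((ξ n ω : ℝ) - rho P ξ n) ∂P = 0 := by
    rw [integral_sub ((xi_memLp h n).integrable (by norm_num)) (integrable_const _), xi_int h n]
    simp
  rw [h2, mul_zero]

lemma Zx_conc [IsProbabilityMeasure P] (h : Ber P ξ) (η : ℝ) (hη : 0 < η) (hη1 : η ≤ 1) (N : ℕ) :
    P.real {ω | η * N ≤ |∑ n ∈ range N, Zx P ξ n ω|} ≤ 6 * (1 : ℕ) * Real.exp (-(η ^ 2 * N / (4 * (1 : ℕ)))) := by
  apply conc (Fil ξ) Fil_mono (Fil_le' h) 1 le_rfl (Zx P ξ) _ _ _ η hη hη1 N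
  · intro n
    unfold Zx
    by_cases hn : 1 ≤ n
    · simp only [if_pos hn]
      exact (Measurable.of_discrete (f := fun k : ℕ => (k : ℝ) - rho P ξ (n - 1))).comp
        (xi_Fil (by omega))
    · simp only [if_neg hn]
      exact measurable_const
  · intro n ω
    unfold Zx
    split_ifs
    · have h1 := h.le (n - 1) ω
      have h2 : (ξ (n - 1) ω : ℝ) ≤ 1 := by exact_mod_cast h1
      have h3 : (0 : ℝ) ≤ (ξ (n - 1) ω : ℝ) := Nat.cast_nonneg _
      have h4 := rho_le (P := P) (ξ := ξ) (n - 1)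
      have h5 := rho_nonneg (P := P) (ξ := ξ) (n - 1)
      rw [abs_le]
      constructor <;> linarith
    · simp
  · intro n G hG _
    unfold Zx
    by_cases hn : 1 ≤ n
    · simp only [if_pos hn]
      exact orth h (n - 1) G hG
    · simp only [if_neg hn, mul_zero, integral_zero]

/-- the walk is small -/
lemma S_small [IsProbabilityMeasure P] (h : Ber P ξ) (hs : Tendsto (fun i => rho P ξ i) atTop (nhds 0)) :
    ∀ᵐ ω ∂P, ∀ᶠ x in atTop, 4 * S ξ x ω ≤ x := by
  have hsum : ∑' N : ℕ, P {ω | (1 / 16 : ℝ) * N ≤ |∑ n ∈ range N, Zx P ξ n ω|} ≠ ∞ := by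
    have h1 : ∀ N : ℕ, P {ω | (1 / 16 : ℝ) * N ≤ |∑ n ∈ range N, Zx P ξ n ω|} ≤
        ENNReal.ofReal (6 * Real.exp (-(1 / 1024)) ^ N) := by
      intro N
      rw [← ENNReal.ofReal_toReal (measure_ne_top P _)]
      apply ENNReal.ofReal_le_ofReal
      have h2 := Zx_conc h (1 / 16) (by norm_num) (by norm_num) N
      refine h2.trans (le_of_eq ?_)
      rw [← Real.exp_nat_mul]
      push_cast
      congr 1
      · norm_num
      · congr 1
        ring
    refine ne_top_of_le_ne_top ?_ (ENNReal.tsum_le_tsum h1)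
    have h3 : Summable (fun N : ℕ => 6 * Real.exp (-(1 / 1024)) ^ N) := by
      apply Summable.mul_left
      apply summable_geometric_of_lt_one (Real.exp_pos _).le
      rw [Real.exp_lt_one_iff]
      norm_num
    rw [← ENNReal.ofReal_tsum_of_nonneg (fun N => by positivity) h3]
    exact ENNReal.ofReal_ne_top
  have hces := hs.cesaro
  have hces2 : ∀ᶠ x : ℕ in atTop, ∑ m ∈ range x, rho P ξ m ≤ x / 16 := by
    have : (0 : ℝ) < 1 / 16 := by norm_num
    filter_upwards [hces.eventually (gt_mem_nhds this), eventually_ge_atTop 1] with x hx hx1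
    have hx0 : (0 : ℝ) < x := by exact_mod_cast hx1
    rw [inv_mul_lt_iff₀ hx0] at hx
    linarith
  filter_upwards [ae_eventually_notMem hsum] with ω hω
  have hω2 := (tendsto_add_atTop_nat 1).eventually hω
  filter_upwards [hω2, hces2, eventually_ge_atTop 1] with x h1 h2 h3
  rw [not_le, Zx_sum, abs_lt] at h1
  have h4 := h1.2
  have h5 : (1 : ℝ) ≤ x := by exact_mod_cast h3
  push_cast at h4
  have h6 : 4 * (S ξ x ω : ℝ) ≤ x := by linarith
  exact_mod_cast h6

end Pool.Agent.D0H24.IP
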