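import Pool.Agent.D0H24.IP.Win

/-!
# Many windows
-/

set_option autoImplicit false

namespace Pool.Agent.D0H24.IP

open MeasureTheory ProbabilityTheory Finset
open Pool.Agent.D0H24.SR (Fil Fil_mono)
open scoped ENNReal

set_option linter.unusedSectionVars false
set_option linter.unusedVariables false

/-- the future -/
@[reducible] def Fut {Ω : Type*} (ξ : ℕ → Ω → ℕ) (n : ℕ) : MeasurableSpace Ω :=
  ⨆ i ∈ Set.Ici n, MeasurableSpace.comap (ξ i) inferInstance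

variable {Ω : Type*} [m0 : MeasurableSpace Ω] {P : Measure Ω} {ξ : ℕ → Ω → ℕ}

lemma Fil_le' (h : Ber P ξ) (n : ℕ) : Fil ξ n ≤ m0 := iSup₂_le fun i _ => (h.meas i).comap_le

lemma Fut_le' (h : Ber P ξ) (n : ℕ) : Fut ξ n ≤ m0 := iSup₂_le fun i _ => (h.meas i).comap_le

lemma xi_Fil {n i : ℕ} (hi : i < n) : Measurable[Fil ξ n] (ξ i) := Pool.Agent.D0H24.SR.xi_meas hi

lemma xi_Fut {n i : ℕ} (hi : n ≤ i) : Measurable[Fut ξ n] (ξ i) := by
  rw [measurable_iff_comap_le]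
  exact le_iSup₂_of_le (f := fun i (_ : i ∈ Set.Ici n) => MeasurableSpace.comap (ξ i) inferInstance)
    i hi le_rfl

lemma X_Fil (n : ℕ) (s : Finset ℕ) (hs : ∀ i ∈ s, i < n) : Measurable[Fil ξ n] (X ξ s) := by
  unfold X
  apply Finset.measurable_sum
  intro i hi
  exact xi_Fil (hs i hi)

lemma X_Fut (n : ℕ) (s : Finset ℕ) (hs : ∀ i ∈ s, n ≤ i) : Measurable[Fut ξ n] (X ξ s) := by
  unfold X
  apply Finset.measurable_sum
  intro i hi
  exact xi_Fut (hs i hi)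

lemma past_fut (h : Ber P ξ) (n : ℕ) : Indep (Fil ξ n) (Fut ξ n) P := by
  apply indep_iSup_of_disjoint (fun i => (h.meas i).comap_le) h.indep
  rw [Set.disjoint_left]
  intro i hi hi2
  exact absurd (Set.mem_Iio.1 hi) (not_lt.2 (Set.mem_Ici.1 hi2))

/-- an event of the past and an event of the future which depends on the past -/
lemma spl [IsProbabilityMeasure P] (h : Ber P ξ) (n : ℕ) {α : Type} [Countable α] (U : Ω → α)
    (hU : ∀ u, MeasurableSet[Fil ξ n] {ω | U ω = u}) (E : Set Ω) (hE : MeasurableSet[Fil ξ n] E)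
    (F : α → Set Ω) (hF : ∀ u, MeasurableSet[Fut ξ n] (F u)) (δ : ℝ≥0∞)
    (hδ : ∀ u, (∃ ω ∈ E, U ω = u) → P (F u) ≤ δ) :
    P (E ∩ {ω | ω ∈ F (U ω)}) ≤ δ * P E := by
  have h1 : E ∩ {ω | ω ∈ F (U ω)} ⊆ ⋃ u, (E ∩ {ω | U ω = u}) ∩ F u := by
    intro ω hω
    rw [Set.mem_iUnion]
    exact ⟨U ω, ⟨hω.1, rfl⟩, hω.2⟩
  have h2 : E = ⋃ u, (E ∩ {ω | U ω = u}) := by
    ext ω
    rw [Set.mem_iUnion]
    constructor
    · intro hω
      exact ⟨U ω, hω, rfl⟩
    · rintro ⟨u, hω, -⟩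
      exact hω
  have hm : ∀ u, MeasurableSet[Fil ξ n] (E ∩ {ω | U ω = u}) := fun u => hE.inter (hU u)
  have h3 : P E = ∑' u, P (E ∩ {ω | U ω = u}) := by
    conv_lhs => rw [h2]
    apply measure_iUnion
    · intro u v huv
      rw [Function.onFun, Set.disjoint_left]
      rintro ω ⟨-, hu⟩ ⟨-, hv⟩
      exact huv (hu.symm.trans hv)
    · intro u
      exact Fil_le' h n _ (hm u)
  calc P (E ∩ {ω | ω ∈ F (U ω)}) ≤ P (⋃ u, (E ∩ {ω | U ω = u}) ∩ F u) := measure_mono h1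
    _ ≤ ∑' u, P ((E ∩ {ω | U ω = u}) ∩ F u) := measure_iUnion_le _
    _ ≤ ∑' u, δ * P (E ∩ {ω | U ω = u}) := by
        apply ENNReal.tsum_le_tsum
        intro u
        rw [(Indep_iff _ _ _).1 (past_fut h n) _ _ (hm u) (hF u)]
        by_cases hu : ∃ ω ∈ E, U ω = u
        · rw [mul_comm]
          exact mul_le_mul' (hδ u hu) le_rfl
        · have : E ∩ {ω | U ω = u} = ∅ := by
            ext ω
            rw [Set.mem_inter_iff, Set.mem_empty_iff_false, iff_false]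
            rintro ⟨a, b⟩
            exact hu ⟨ω, a, b⟩
          rw [this, measure_empty, zero_mul, mul_zero]
    _ = δ * ∑' u, P (E ∩ {ω | U ω = u}) := ENNReal.tsum_mul_left
    _ = δ * P E := by rw [← h3]

/-- the walk -/
def S (ξ : ℕ → Ω → ℕ) (t : ℕ) (ω : Ω) : ℕ := X ξ (Ico 0 t) ω

lemma S_split (n t : ℕ) (hnt : n ≤ t) (ω : Ω) : S ξ t ω = S ξ n ω + X ξ (Ico n t) ω := by
  unfold S X
  rw [sum_Ico_consecutive _ (Nat.zero_le _) hnt]

lemma X_le (h : Ber P ξ) (a b : ℕ) (ω : Ω) : X ξ (Ico a b) ω ≤ b - a := by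
  unfold X
  calc ∑ i ∈ Ico a b, ξ i ω ≤ ∑ i ∈ Ico a b, 1 := sum_le_sum fun i _ => h.le i ω
    _ = b - a := by simp

/-- no success between `x` and `y` -/
def NS (ξ : ℕ → Ω → ℕ) (C D : Ω → Finset ℕ) (x y : ℕ) : Set Ω :=
  {ω | ∀ t, x ≤ t → t < y → ¬ (t ∈ D ω ∧ ξ t ω = 1 ∧ S ξ t ω + 1 ∈ C ω)}

/-- the gaps of `C` and `D` are small -/
def Gd (P : Measure Ω) (ξ : ℕ → Ω → ℕ) (C D : Ω → Finset ℕ) (x L HC HD : ℕ) (lam : ℝ) : Set Ω :=
  {ω | (∀ z, S ξ x ω ≤ z → z ≤ S ξ x ω + L → ∃ c ∈ C ω, z < c ∧ c ≤ z + HC) ∧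
    ∀ y, x ≤ y → y < x + L → ∃ t ∈ D ω, y ≤ t ∧ t < y + HD ∧ lam ≤ rho P ξ t}

lemma fin_meas (m : MeasurableSpace Ω) {α : Type} [Countable α] (U : Ω → α)
    (hU : ∀ u, MeasurableSet[m] {ω | U ω = u}) (Q : α → Prop) : MeasurableSet[m] {ω | Q (U ω)} := by
  have : {ω | Q (U ω)} = ⋃ u ∈ {u | Q u}, {ω | U ω = u} := by
    ext ω
    simp
  rw [this]
  exact MeasurableSet.biUnion (Set.to_countable _) fun u _ => hU u

/-- the past information -/
def UU (ξ : ℕ → Ω → ℕ) (C D : Ω → Finset ℕ) (n : ℕ) (ω : Ω) : Finset ℕ × Finset ℕ × ℕ :=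
  (C ω, D ω, S ξ n ω)

lemma UU_meas (C D : Ω → Finset ℕ) (x n : ℕ) (hxn : x ≤ n)
    (hC : ∀ s, MeasurableSet[Fil ξ x] {ω | C ω = s}) (hD : ∀ s, MeasurableSet[Fil ξ x] {ω | D ω = s}) (u : _) :
    MeasurableSet[Fil ξ n] {ω | UU ξ C D n ω = u} := by
  have e : {ω | UU ξ C D n ω = u} = {ω | C ω = u.1} ∩ ({ω | D ω = u.2.1} ∩ {ω | S ξ n ω = u.2.2}) := by
    ext ω
    unfold UU
    constructor
    · intro hω
      rw [Set.mem_ofPred_eq] at hω
      rw [← hω]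
      exact ⟨rfl, rfl, rfl⟩
    · rintro ⟨a, b, c⟩
      rw [Set.mem_ofPred_eq] at a b c ⊢
      rw [a, b, c]
  rw [e]
  have hS : Measurable[Fil ξ n] (S ξ n) := X_Fil n _ (fun i hi => (mem_Ico.1 hi).2)
  exact (Fil_mono hxn _ (hC _)).inter ((Fil_mono hxn _ (hD _)).inter (hS (measurableSet_singleton _)))

/-- the failure in one window, given the past -/
def Fail (ξ : ℕ → Ω → ℕ) (n l : ℕ) (u : Finset ℕ × Finset ℕ × ℕ) : Set Ω :=
  {ω | ∀ t, n ≤ t → t < n + l → ¬ (t ∈ u.2.1 ∧ ξ t ω = 1 ∧ u.2.2 + X ξ (Ico n t) ω + 1 ∈ u.1)}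

lemma Fail_meas (n l : ℕ) (u : Finset ℕ × Finset ℕ × ℕ) : MeasurableSet[Fut ξ n] (Fail ξ n l u) := by
  unfold Fail
  simp only [Set.ofPred_forall]
  apply MeasurableSet.iInter
  intro t
  apply MeasurableSet.iInter
  intro ht
  apply MeasurableSet.iInter
  intro _
  apply MeasurableSet.compl
  have h1 : MeasurableSet[Fut ξ n] {ω | ξ t ω = 1} := xi_Fut ht (measurableSet_singleton 1)
  have h2 : MeasurableSet[Fut ξ n] {ω | u.2.2 + X ξ (Ico n t) ω + 1 ∈ u.1} :=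
    (X_Fut n (Ico n t) (fun i hi => (mem_Ico.1 hi).1))
      (MeasurableSet.of_discrete (s := {a : ℕ | u.2.2 + a + 1 ∈ u.1}))
  by_cases h3 : t ∈ u.2.1
  · have : {ω | t ∈ u.2.1 ∧ ξ t ω = 1 ∧ u.2.2 + X ξ (Ico n t) ω + 1 ∈ u.1} =
        {ω | ξ t ω = 1} ∩ {ω | u.2.2 + X ξ (Ico n t) ω + 1 ∈ u.1} := by
      ext ω
      simp [h3]
    change MeasurableSet[Fut ξ n] {ω | t ∈ u.2.1 ∧ ξ t ω = 1 ∧ u.2.2 + X ξ (Ico n t) ω + 1 ∈ u.1}
    rw [this]
    exact h1.inter h2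
  · have : {ω | t ∈ u.2.1 ∧ ξ t ω = 1 ∧ u.2.2 + X ξ (Ico n t) ω + 1 ∈ u.1} = ∅ := by
      ext ω
      simp [h3]
    change MeasurableSet[Fut ξ n] {ω | t ∈ u.2.1 ∧ ξ t ω = 1 ∧ u.2.2 + X ξ (Ico n t) ω + 1 ∈ u.1}
    rw [this]
    exact @MeasurableSet.empty Ω (Fut ξ n)

/-- many windows -/
theorem many [IsProbabilityMeasure P] (h : Ber P ξ) (x k J : ℕ) (C D : Ω → Finset ℕ) (lam : ℝ) (HC HD : ℕ)
    (hCm : ∀ s, MeasurableSet[Fil ξ x] {ω | C ω = s}) (hDm : ∀ s, MeasurableSet[Fil ξ x] {ω | D ω = s})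
    (hlam : 0 < lam) (hHC : 1 ≤ HC)
    (h1 : ∀ y, x ≤ y → y ≤ x + J * (2 * k + HD) → lam * k ≤ ∑ i ∈ Ico y (y + k), rho P ξ i)
    (h3 : ∀ i, x ≤ i → rho P ξ i ≤ 1 / 2)
    (hk1 : 2 * (HC : ℝ) ≤ lam * k) (hk2 : 128 * (HC : ℝ) ^ 2 * (HD : ℝ) ^ 2 ≤ lam ^ 3 * k)
    (j : ℕ) (hj : j ≤ J) :
    P (Gd P ξ C D x (J * (2 * k + HD)) HC HD lam ∩ NS ξ C D x (x + j * (2 * k + HD))) ≤
      ENNReal.ofReal (1 - lam ^ 2 / (4 * HC)) ^ j := by
  induction j with
  | zero =>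
    rw [pow_zero]
    exact prob_le_one
  | succ j ih =>
    have ih' := ih (by omega)
    set l := 2 * k + HD with hl
    set n := x + j * l with hn
    have hxn : x ≤ n := by omega
    have hjl : (j + 1) * l = j * l + l := by ring
    have hJl : (j + 1) * l ≤ J * l := Nat.mul_le_mul_right _ hj
    set E := Gd P ξ C D x (J * l) HC HD lam ∩ NS ξ C D x n with hE
    have hsub : Gd P ξ C D x (J * l) HC HD lam ∩ NS ξ C D x (x + (j + 1) * l) ⊆
        E ∩ {ω | ω ∈ Fail ξ n l (UU ξ C D n ω)} := by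
      rintro ω ⟨g1, g2⟩
      refine ⟨⟨g1, fun t a b => g2 t a (by omega)⟩, ?_⟩
      intro t a b
      have g3 := g2 t (by omega) (by omega)
      rw [S_split n t a ω] at g3
      exact g3
    have hEm : MeasurableSet[Fil ξ n] E := by
      have hUx := UU_meas (ξ := ξ) C D x x le_rfl hCm hDm
      have hUn := UU_meas (ξ := ξ) C D x n hxn hCm hDm
      have m1 : MeasurableSet[Fil ξ n] (Gd P ξ C D x (J * l) HC HD lam) :=
        Fil_mono hxn _ (fin_meas (Fil ξ x) (UU ξ C D x) hUx (fun u : Finset ℕ × Finset ℕ × ℕ =>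
          (∀ z, u.2.2 ≤ z → z ≤ u.2.2 + J * l → ∃ c ∈ u.1, z < c ∧ c ≤ z + HC) ∧
            ∀ y, x ≤ y → y < x + J * l → ∃ t ∈ u.2.1, y ≤ t ∧ t < y + HD ∧ lam ≤ rho P ξ t))
      have m2 : MeasurableSet[Fil ξ n] (NS ξ C D x n) := by
        unfold NS
        simp only [Set.ofPred_forall]
        apply MeasurableSet.iInter
        intro t
        apply MeasurableSet.iInter
        intro _
        apply MeasurableSet.iInter
        intro ht
        apply MeasurableSet.compl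
        have a1 : MeasurableSet[Fil ξ n] {ω | t ∈ D ω} :=
          Fil_mono hxn _ (fin_meas (Fil ξ x) D hDm (fun s => t ∈ s))
        have a2 : MeasurableSet[Fil ξ n] {ω | ξ t ω = 1} := xi_Fil ht (measurableSet_singleton 1)
        have a3 : MeasurableSet[Fil ξ n] {ω | S ξ t ω + 1 ∈ C ω} := by
          have e2 : {ω | S ξ t ω + 1 ∈ C ω} = ⋃ s : Finset ℕ, {ω | C ω = s} ∩ {ω | S ξ t ω + 1 ∈ s} := by
            ext ω
            simp
          rw [e2]
          apply MeasurableSet.iUnion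
          intro s
          apply MeasurableSet.inter (Fil_mono hxn _ (hCm s))
          exact (X_Fil n (Ico 0 t) (fun i hi => (mem_Ico.1 hi).2.trans ht))
            (MeasurableSet.of_discrete (s := {a : ℕ | a + 1 ∈ s}))
        exact a1.inter (a2.inter a3)
      exact m1.inter m2
    have hspl := spl h n (UU ξ C D n) (UU_meas C D x n hxn hCm hDm) E hEm (Fail ξ n l) (Fail_meas n l)
      (ENNReal.ofReal (1 - lam ^ 2 / (4 * HC))) (by
        rintro u ⟨ω, ⟨g1, -⟩, rfl⟩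
        obtain ⟨g2, g3⟩ := g1
        have hSn : S ξ n ω ≤ S ξ x ω + j * l := by
          rw [S_split x n hxn ω]
          have := X_le (P := P) h x n ω
          omega
        have hSx : S ξ x ω ≤ S ξ n ω := by
          rw [S_split x n hxn ω]
          omega
        have hone := one h n k (S ξ n ω) (C ω) (D ω) lam HC HD hlam hHC
          (h1 n hxn (by omega)) (by
            have := h1 (n + k) (by omega) (by omega)
            have e : n + k + k = n + 2 * k := by ring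
            rw [e] at this
            exact this) (fun i hi => h3 i (by rw [mem_Ico] at hi; omega))
          (fun z a b => g2 z (by omega) (by omega)) (fun y a b => g3 y (by omega) (by omega)) hk1 hk2
        have hcompl : Fail ξ n l (UU ξ C D n ω) = {ω' | ∃ t, n ≤ t ∧ t < n + (2 * k + HD) ∧ t ∈ (D ω : Set ℕ) ∧
            ξ t ω' = 1 ∧ S ξ n ω + X ξ (Ico n t) ω' + 1 ∈ (C ω : Set ℕ)}ᶜ := by
          ext ω'
          unfold Fail UU
          simp only [Set.mem_ofPred_eq, Set.mem_compl_iff, not_exists, not_and, mem_coe]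
          constructor
          · intro a t b c d e f
            exact a t b c d e f
          · intro a t b c d e f
            exact a t b c d e f
        have hm : MeasurableSet (Fail ξ n l (UU ξ C D n ω)) := Fut_le' h n _ (Fail_meas n l _)
        have hprob : P.real (Fail ξ n l (UU ξ C D n ω)) ≤ 1 - lam ^ 2 / (4 * HC) := by
          have hm2 : MeasurableSet {ω' | ∃ t, n ≤ t ∧ t < n + (2 * k + HD) ∧ t ∈ (D ω : Set ℕ) ∧
            ξ t ω' = 1 ∧ S ξ n ω + X ξ (Ico n t) ω' + 1 ∈ (C ω : Set ℕ)} := by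
            have := hm.compl
            rw [hcompl, compl_compl] at this
            exact this
          rw [hcompl, measureReal_compl hm2]
          simp only [probReal_univ]
          linarith
        rw [← ENNReal.ofReal_toReal (measure_ne_top P (Fail ξ n l (UU ξ C D n ω)))]
        exact ENNReal.ofReal_le_ofReal hprob)
    calc P (Gd P ξ C D x (J * l) HC HD lam ∩ NS ξ C D x (x + (j + 1) * l)) ≤ P (E ∩ {ω | ω ∈ Fail ξ n l (UU ξ C D n ω)}) :=
          measure_mono hsub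
      _ ≤ ENNReal.ofReal (1 - lam ^ 2 / (4 * HC)) * P E := hspl
      _ ≤ ENNReal.ofReal (1 - lam ^ 2 / (4 * HC)) * ENNReal.ofReal (1 - lam ^ 2 / (4 * HC)) ^ j := by
          gcongr
      _ = _ := by rw [pow_succ (ENNReal.ofReal (1 - lam ^ 2 / (4 * HC))) j, mul_comm]

end Pool.Agent.D0H24.IP
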