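import Pool.Agent.D0H24.IP.Mul

/-!
# Parameters
-/

set_option autoImplicit false

namespace Pool.Agent.D0H24.IP

open MeasureTheory ProbabilityTheory Finset Filter
open Pool.Agent.D0H24.SR (Fil Fil_mono)
open scoped ENNReal

set_option linter.unusedSectionVars false
set_option linter.unusedVariables false

/-- the number of binary digits -/
def Lam (x : ℕ) : ℕ := Nat.log 2 x + 1

lemma Lam_mono {x y : ℕ} (h : x ≤ y) : Lam x ≤ Lam y := Nat.succ_le_succ (Nat.log_mono_right h)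

lemma Lam_pos (x : ℕ) : 1 ≤ Lam x := Nat.succ_le_succ (Nat.zero_le _)

lemma lt_two_pow_Lam (x : ℕ) : x < 2 ^ Lam x := Nat.lt_pow_succ_log_self (by norm_num) x

lemma Lam_two_mul (x : ℕ) (hx : 1 ≤ x) : Lam (2 * x) = Lam x + 1 := by
  unfold Lam
  rw [mul_comm, Nat.log_mul_base (by norm_num) (by omega)]

lemma tendsto_Lam : Tendsto Lam atTop atTop := by
  refine tendsto_atTop_atTop.2 fun b => ⟨2 ^ b, fun x hx => ?_⟩
  have h1 : b ≤ Nat.log 2 x := by
    calc b = Nat.log 2 (2 ^ b) := (Nat.log_pow (by norm_num) b).symm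
      _ ≤ _ := Nat.log_mono_right hx
  exact h1.trans (Nat.le_succ _)

/-- polylogarithmic is less than linear -/
lemma Lam_pow_le (K : ℕ) (c : ℕ) : ∀ᶠ x : ℕ in atTop, c * Lam x ^ K ≤ x := by
  have h1 : Tendsto (fun n : ℕ => (n : ℝ) ^ K / (2 : ℝ) ^ n) atTop (nhds 0) :=
    tendsto_pow_const_div_const_pow_of_one_lt K (by norm_num)
  have h2 : ∀ᶠ n : ℕ in atTop, 2 * c * n ^ K ≤ 2 ^ n := by
    have h3 : (0 : ℝ) < 1 / (2 * c + 1) := by positivity
    filter_upwards [h1.eventually (gt_mem_nhds h3)] with n hn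
    rw [div_lt_div_iff₀ (by positivity) (by positivity), one_mul] at hn
    have h4 : (n : ℝ) ^ K * (2 * c) ≤ (n : ℝ) ^ K * (2 * c + 1) :=
      mul_le_mul_of_nonneg_left (by linarith) (by positivity)
    have h5 : ((2 * c * n ^ K : ℕ) : ℝ) ≤ ((2 ^ n : ℕ) : ℝ) := by
      push_cast
      linarith
    exact_mod_cast h5
  filter_upwards [tendsto_Lam.eventually h2, eventually_ge_atTop 1] with x hx hx1
  have h6 : 2 ^ Lam x ≤ 2 * x := by
    unfold Lam
    rw [pow_succ, mul_comm]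
    exact Nat.mul_le_mul_left _ (Nat.pow_log_le_self 2 (by omega))
  have h7 : 2 * c * Lam x ^ K ≤ 2 * x := hx.trans h6
  have h8 : 2 * c * Lam x ^ K = 2 * (c * Lam x ^ K) := by ring
  omega

/-- the length of half a window -/
def kk (a b e : ℕ) (x : ℕ) : ℕ := Lam x ^ (2 * a + 2 * b + 3 * e + 1)

/-- the number of windows -/
def JJ (a e : ℕ) (x : ℕ) : ℕ := Lam x ^ (2 * e + a + 4)

/-- the total length -/
def LL (a b e : ℕ) (x : ℕ) : ℕ := JJ a e x * (2 * kk a b e x + Lam x ^ b)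

lemma LL_le (a b e x : ℕ) (hx : 3 ≤ Lam x) : LL a b e x ≤ Lam x ^ (3 * a + 2 * b + 5 * e + 6) := by
  unfold LL JJ kk
  have h1 : Lam x ^ b ≤ Lam x ^ (2 * a + 2 * b + 3 * e + 1) := Nat.pow_le_pow_right (Lam_pos x) (by omega)
  calc Lam x ^ (2 * e + a + 4) * (2 * Lam x ^ (2 * a + 2 * b + 3 * e + 1) + Lam x ^ b) ≤
      Lam x ^ (2 * e + a + 4) * (Lam x * Lam x ^ (2 * a + 2 * b + 3 * e + 1)) := by
        apply Nat.mul_le_mul_left
        nlinarith [Nat.pow_pos (Lam_pos x) (n := 2 * a + 2 * b + 3 * e + 1)]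
    _ = Lam x ^ (3 * a + 2 * b + 5 * e + 6) := by
        rw [← pow_succ', ← pow_add]
        congr 1
        ring

variable {Ω : Type*} [m0 : MeasurableSpace Ω] {P : Measure Ω} {ξ : ℕ → Ω → ℕ}

/-- the model: probabilities tend to zero, and are not too small at the integers prime to `q` -/
structure Mod (P : Measure Ω) (ξ : ℕ → Ω → ℕ) (q κ : ℕ) : Prop where
  ber : Ber P ξ
  zero : ∀ ω, ξ 0 ω = 0
  small : Tendsto (fun i => rho P ξ i) atTop (nhds 0)
  large : ∀ᶠ i in atTop, Nat.Coprime i q → 1 / (Lam i : ℝ) ^ κ ≤ rho P ξ i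

/-- lower bound for the probabilities in a window -/
lemma rho_low [IsProbabilityMeasure P] {q κ : ℕ} (h : Mod P ξ q κ) :
    ∀ᶠ x in atTop, ∀ i, x ≤ i → i ≤ 2 * x → Nat.Coprime i q → 1 / (Lam x : ℝ) ^ (κ + 1) ≤ rho P ξ i := by
  obtain ⟨i₀, hi₀⟩ := eventually_atTop.1 h.large
  have h2 := tendsto_Lam.eventually_ge_atTop (2 ^ κ)
  filter_upwards [eventually_ge_atTop (i₀ + 1), h2] with x hx hL i hi1 hi2 hq
  refine le_trans ?_ (hi₀ i (by omega) hq)
  have h3 : Lam i ≤ 2 * Lam x := by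
    have := Lam_mono hi2
    rw [Lam_two_mul x (by omega)] at this
    have := Lam_pos x
    omega
  have h4 : (Lam i) ^ κ ≤ Lam x ^ (κ + 1) := by
    calc (Lam i) ^ κ ≤ (2 * Lam x) ^ κ := Nat.pow_le_pow_left h3 κ
      _ = 2 ^ κ * Lam x ^ κ := Nat.mul_pow _ _ _
      _ ≤ Lam x * Lam x ^ κ := Nat.mul_le_mul_right _ hL
      _ = _ := by rw [pow_succ, mul_comm]
  apply one_div_le_one_div_of_le
  · have := Lam_pos i
    positivity
  · exact_mod_cast h4

/-- sums of probabilities -/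
lemma rho_sum [IsProbabilityMeasure P] {q κ : ℕ} (hq : 1 ≤ q) (h : Mod P ξ q κ) (n : ℕ) (hn : 1 ≤ n) :
    ∀ᶠ x in atTop, ∀ y, x ≤ y → y + Lam x ^ n ≤ 2 * x →
      1 / (Lam x : ℝ) ^ (κ + 2) * ((Lam x ^ n : ℕ) : ℝ) ≤ ∑ i ∈ Ico y (y + Lam x ^ n), rho P ξ i := by
  filter_upwards [rho_low h, tendsto_Lam.eventually_ge_atTop (4 * q)] with x hx hL y hy1 hy2
  have hLq : 4 * q ≤ Lam x ^ n := hL.trans (Nat.le_self_pow (by omega) _)
  set k := Lam x ^ n with hk
  -- the integers `q j + 1`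
  have h1 := Nat.div_add_mod y q
  have h2 := Nat.mod_lt y hq
  have h3 := Nat.div_add_mod k q
  have h3' := Nat.mod_lt k hq
  have h12 : 4 ≤ k / q := by
    rw [Nat.le_div_iff_mul_le hq]
    exact hLq
  obtain ⟨w, hw⟩ : ∃ w, k / q = w + 4 := ⟨k / q - 4, by omega⟩
  have hwq : q * (w + 4) = q * w + 4 * q := by ring
  rw [hw, hwq] at h3
  set g : ℕ → ℕ := fun j => q * (y / q + 1 + j) + 1 with hg
  have hg' : ∀ j, g j = q * (y / q) + q + q * j + 1 := fun j => by
    simp only [hg]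
    ring
  have hinj : (range (w + 2)).image g ⊆ Ico y (y + k) := by
    intro i hi
    rw [mem_image] at hi
    obtain ⟨j, hj, rfl⟩ := hi
    rw [mem_range] at hj
    rw [mem_Ico, hg']
    have h5 : q * j ≤ q * (w + 1) := Nat.mul_le_mul_left _ (by omega)
    have h6 : q * (w + 1) = q * w + q := by ring
    constructor
    · omega
    · omega
  have hcard : ((range (w + 2)).image g).card = w + 2 := by
    rw [card_image_of_injective, card_range]
    intro a b hab
    rw [hg', hg'] at hab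
    have : q * a = q * b := by omega
    exact Nat.eq_of_mul_eq_mul_left hq this
  have hlow : ∀ i ∈ (range (w + 2)).image g, 1 / (Lam x : ℝ) ^ (κ + 1) ≤ rho P ξ i := by
    intro i hi
    have h7 := hinj hi
    rw [mem_Ico] at h7
    rw [mem_image] at hi
    obtain ⟨j, hj, rfl⟩ := hi
    apply hx _ (by omega) (by omega)
    simp only [hg]
    exact (Nat.coprime_mul_left_add_left 1 q (y / q + 1 + j)).2 (Nat.coprime_one_left q)
  have hLr : (0 : ℝ) < Lam x := by exact_mod_cast Lam_pos x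
  calc 1 / (Lam x : ℝ) ^ (κ + 2) * (k : ℝ) ≤ ((w + 2 : ℕ) : ℝ) * (1 / (Lam x : ℝ) ^ (κ + 1)) := by
        have h8 : (k : ℝ) ≤ ((w + 2 : ℕ) : ℝ) * Lam x := by
          have h9 : k ≤ (w + 2) * Lam x := by
            have h13 : (w + 2) * (4 * q) ≤ (w + 2) * Lam x := Nat.mul_le_mul_left _ hL
            have h14 : (w + 2) * (4 * q) = 4 * (q * w) + 8 * q := by ring
            omega
          exact_mod_cast h9
        rw [pow_succ (Lam x : ℝ) (κ + 1)]
        rw [one_div_mul_eq_div, mul_one_div, div_le_div_iff₀ (by positivity) (by positivity)]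
        calc (k : ℝ) * (Lam x : ℝ) ^ (κ + 1) ≤ (((w + 2 : ℕ) : ℝ) * Lam x) * (Lam x : ℝ) ^ (κ + 1) :=
              mul_le_mul_of_nonneg_right h8 (by positivity)
          _ = _ := by ring
    _ ≤ ∑ i ∈ (range (w + 2)).image g, rho P ξ i := by
        have := card_nsmul_le_sum _ _ _ hlow
        rw [hcard, nsmul_eq_mul] at this
        exact this
    _ ≤ _ := sum_le_sum_of_subset_of_nonneg hinj fun i _ _ => rho_nonneg i

/-- the failure probability -/
theorem bound [IsProbabilityMeasure P] {q κ : ℕ} (hq : 1 ≤ q) (h : Mod P ξ q κ) (a b : ℕ) :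
    ∀ᶠ x in atTop, ∀ C D : Ω → Finset ℕ, (∀ s, MeasurableSet[Fil ξ x] {ω | C ω = s}) →
      (∀ s, MeasurableSet[Fil ξ x] {ω | D ω = s}) →
      P (Gd P ξ C D x (LL a b (κ + 2) x) (Lam x ^ a) (Lam x ^ b) (1 / (Lam x : ℝ) ^ (κ + 2)) ∩
        NS ξ C D x (x + LL a b (κ + 2) x)) ≤ ENNReal.ofReal (1 / (x : ℝ) ^ 4) := by
  set e := κ + 2 with he
  have hs : ∀ᶠ i in atTop, rho P ξ i ≤ 1 / 2 := by
    have : (0 : ℝ) < 1 / 2 := by norm_num
    filter_upwards [h.small.eventually (gt_mem_nhds this)] with i hi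
    exact hi.le
  obtain ⟨i₀, hi₀⟩ := eventually_atTop.1 hs
  have hbig := tendsto_Lam.eventually_ge_atTop 128
  have hlen := Lam_pow_le (3 * a + 2 * b + 5 * e + 6) 2
  filter_upwards [rho_sum hq h (2 * a + 2 * b + 3 * e + 1) (by omega), hbig, hlen, eventually_ge_atTop i₀,
    eventually_ge_atTop 1] with x hsum hL hlen hx hx1 C D hC hD
  have hLL := LL_le a b e x (by omega)
  have hkL : kk a b e x ≤ Lam x ^ (3 * a + 2 * b + 5 * e + 6) :=
    Nat.pow_le_pow_right (Lam_pos x) (by omega)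
  have hLr : (128 : ℝ) ≤ Lam x := by exact_mod_cast hL
  have hL0 : (0 : ℝ) < Lam x := by linarith
  have hm := many h.ber x (kk a b e x) (JJ a e x) C D (1 / (Lam x : ℝ) ^ e) (Lam x ^ a) (Lam x ^ b) hC hD
    (by positivity) (Nat.pow_pos (Lam_pos x))
    (by
      intro y hy1 hy2
      have hy3 : y ≤ x + LL a b e x := hy2
      exact hsum y hy1 (by
        have : kk a b e x = Lam x ^ (2 * a + 2 * b + 3 * e + 1) := rfl
        omega))
    (fun i hi => hi₀ i (by omega))
    (by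
      unfold kk
      push_cast
      rw [one_div_mul_eq_div, le_div_iff₀ (by positivity)]
      have e1 : (Lam x : ℝ) ^ (2 * a + 2 * b + 3 * e + 1) =
          (Lam x : ℝ) ^ a * (Lam x : ℝ) ^ e * ((Lam x : ℝ) ^ (a + 2 * b + 2 * e) * Lam x) := by ring
      rw [e1]
      have e2 : (1 : ℝ) ≤ (Lam x : ℝ) ^ (a + 2 * b + 2 * e) := one_le_pow₀ (by linarith)
      have e3 : (2 : ℝ) ≤ (Lam x : ℝ) ^ (a + 2 * b + 2 * e) * Lam x := by
        have := mul_le_mul e2 hLr (by norm_num) (by positivity)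
        linarith only [this]
      have e4 : (0 : ℝ) < (Lam x : ℝ) ^ a * (Lam x : ℝ) ^ e := by positivity
      have e5 := mul_le_mul_of_nonneg_left e3 e4.le
      linarith only [e5])
    (by
      unfold kk
      push_cast
      have e0 : (1 / (Lam x : ℝ) ^ e) ^ 3 * (Lam x : ℝ) ^ (2 * a + 2 * b + 3 * e + 1) =
          ((Lam x : ℝ) ^ a) ^ 2 * ((Lam x : ℝ) ^ b) ^ 2 * Lam x := by
        field_simp
        ring
      rw [e0]
      have e4 : (0 : ℝ) < ((Lam x : ℝ) ^ a) ^ 2 * ((Lam x : ℝ) ^ b) ^ 2 := by positivity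
      have e5 := mul_le_mul_of_nonneg_left hLr e4.le
      linarith only [e5])
    (JJ a e x) le_rfl
  have eL : JJ a e x * (2 * kk a b e x + Lam x ^ b) = LL a b e x := rfl
  rw [eL] at hm
  refine hm.trans ?_
  rw [← ENNReal.ofReal_pow (by
    have e5 : (1 / (Lam x : ℝ) ^ e) ^ 2 / (4 * ((Lam x ^ a : ℕ) : ℝ)) ≤ 1 := by
      push_cast
      rw [div_le_one (by positivity)]
      have e6 : (1 / (Lam x : ℝ) ^ e) ^ 2 ≤ 1 := by
        apply pow_le_one₀ (by positivity)
        rw [div_le_one (by positivity)]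
        exact one_le_pow₀ (by linarith)
      have e7 : (1 : ℝ) ≤ (Lam x : ℝ) ^ a := one_le_pow₀ (by linarith)
      linarith
    linarith)]
  apply ENNReal.ofReal_le_ofReal
  set δ := (1 / (Lam x : ℝ) ^ e) ^ 2 / (4 * ((Lam x ^ a : ℕ) : ℝ)) with hδ
  have hδJ : δ * (JJ a e x : ℕ) = (Lam x : ℝ) ^ 4 / 4 := by
    rw [hδ]
    unfold JJ
    push_cast
    field_simp
    ring
  have hδ1 : 1 - δ ≤ Real.exp (-δ) := by
    have := Real.add_one_le_exp (-δ)
    linarith
  have hδ0 : 0 ≤ 1 - δ := by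
    have e5 : δ ≤ 1 := by
      rw [hδ]
      push_cast
      rw [div_le_one (by positivity)]
      have e6 : (1 / (Lam x : ℝ) ^ e) ^ 2 ≤ 1 := by
        apply pow_le_one₀ (by positivity)
        rw [div_le_one (by positivity)]
        exact one_le_pow₀ (by linarith)
      have e7 : (1 : ℝ) ≤ (Lam x : ℝ) ^ a := one_le_pow₀ (by linarith)
      linarith
    linarith
  calc (1 - δ) ^ (JJ a e x) ≤ Real.exp (-δ) ^ (JJ a e x) := pow_le_pow_left₀ hδ0 hδ1 _
    _ = Real.exp (-((Lam x : ℝ) ^ 4 / 4)) := by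
        rw [← Real.exp_nat_mul, ← hδJ]
        congr 1
        ring
    _ ≤ 1 / (x : ℝ) ^ 4 := by
        have hx0 : (0 : ℝ) < x := by exact_mod_cast hx1
        have hx2 : (x : ℝ) ≤ Real.exp (Lam x) := by
          have e8 : (x : ℝ) ≤ 2 ^ Lam x := by exact_mod_cast (lt_two_pow_Lam x).le
          have e9 : (2 : ℝ) ^ Lam x ≤ Real.exp 1 ^ Lam x :=
            pow_le_pow_left₀ (by norm_num) (by linarith [Real.exp_one_gt_d9]) _
          rw [← Real.exp_nat_mul, mul_one] at e9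
          exact e8.trans e9
        have hx3 : (x : ℝ) ^ 4 ≤ Real.exp ((Lam x : ℝ) ^ 4 / 4) := by
          calc (x : ℝ) ^ 4 ≤ Real.exp (Lam x) ^ 4 := pow_le_pow_left₀ hx0.le hx2 4
            _ = Real.exp (4 * Lam x) := by
                rw [← Real.exp_nat_mul]
                norm_num
            _ ≤ _ := by
                apply Real.exp_le_exp.2
                have e10 : (16 : ℝ) ≤ (Lam x : ℝ) ^ 3 := by
                  calc (16 : ℝ) ≤ 128 ^ 3 := by norm_num
                    _ ≤ _ := pow_le_pow_left₀ (by norm_num) hLr 3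
                have e11 := mul_le_mul_of_nonneg_right e10 hL0.le
                have e12 : (Lam x : ℝ) ^ 4 = (Lam x : ℝ) ^ 3 * Lam x := pow_succ _ 3
                linarith only [e11, e12]
        rw [Real.exp_neg, ← one_div]
        exact one_div_le_one_div_of_le (by positivity) hx3

end Pool.Agent.D0H24.IP
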