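import Pool.Agent.D0H24.SR.Smooth

/-!
# Sums of independent variables with values 0 and 1: smoothing
-/

set_option autoImplicit false

namespace Pool.Agent.D0H24.IP

open MeasureTheory ProbabilityTheory Finset
open Pool.Agent.D0H24.SR (l1_le_sqrt_var)

set_option linter.unusedSectionVars false
set_option linter.unusedVariables false

/-- independent variables with values `0` and `1` -/
structure Ber {Ω : Type*} [MeasurableSpace Ω] (P : Measure Ω) (ξ : ℕ → Ω → ℕ) : Prop where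
  meas : ∀ i, Measurable (ξ i)
  indep : iIndepFun ξ P
  le : ∀ i ω, ξ i ω ≤ 1

/-- the probability of `1` -/
noncomputable def rho {Ω : Type*} [MeasurableSpace Ω] (P : Measure Ω) (ξ : ℕ → Ω → ℕ) (i : ℕ) : ℝ :=
  P.real {ω | ξ i ω = 1}

variable {Ω : Type*} [m0 : MeasurableSpace Ω] {P : Measure Ω} {ξ : ℕ → Ω → ℕ}

lemma rho_nonneg (i : ℕ) : 0 ≤ rho P ξ i := measureReal_nonneg

lemma rho_le [IsProbabilityMeasure P] (i : ℕ) : rho P ξ i ≤ 1 := by
  unfold rho
  exact measureReal_le_one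

lemma xi_real (h : Ber P ξ) (i : ℕ) (ω : Ω) : (ξ i ω : ℝ) = if ξ i ω = 1 then (1 : ℝ) else 0 := by
  have := h.le i ω
  split_ifs with hc
  · rw [hc]; simp
  · have : ξ i ω = 0 := by omega
    rw [this]; simp

lemma xi_int [IsProbabilityMeasure P] (h : Ber P ξ) (i : ℕ) : ∫ ω, (ξ i ω : ℝ) ∂P = rho P ξ i := by
  have h3 : (fun ω => (ξ i ω : ℝ)) = Set.indicator {ω | ξ i ω = 1} (fun _ => (1 : ℝ)) := by
    funext ω
    rw [xi_real h]
    simp [Set.indicator_apply]
  have hs : MeasurableSet {ω | ξ i ω = 1} := h.meas i (measurableSet_singleton 1)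
  rw [h3, integral_indicator_const _ hs]
  simp [rho]

lemma xi_meas (h : Ber P ξ) (i : ℕ) : Measurable (fun ω => (ξ i ω : ℝ)) :=
  (Measurable.of_discrete (f := fun n : ℕ => (n : ℝ))).comp (h.meas i)

lemma xi_bd (h : Ber P ξ) (i : ℕ) (ω : Ω) : |(ξ i ω : ℝ)| ≤ 1 := by
  rw [abs_of_nonneg (Nat.cast_nonneg _)]
  exact_mod_cast h.le i ω

lemma xi_memLp [IsProbabilityMeasure P] (h : Ber P ξ) (i : ℕ) : MemLp (fun ω => (ξ i ω : ℝ)) 2 P :=
  MemLp.of_bound (xi_meas h i).aestronglyMeasurable 1 (Filter.Eventually.of_forall (xi_bd h i))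

lemma xi_var [IsProbabilityMeasure P] (h : Ber P ξ) (i : ℕ) :
    variance (fun ω => (ξ i ω : ℝ)) P = rho P ξ i * (1 - rho P ξ i) := by
  rw [variance_eq_sub (xi_memLp h i), xi_int h i]
  have : ∫ ω, ((fun ω => (ξ i ω : ℝ)) ^ 2) ω ∂P = rho P ξ i := by
    rw [← xi_int h i]
    apply integral_congr_ae
    apply Filter.Eventually.of_forall
    intro ω
    simp only [Pi.pow_apply]
    rw [xi_real h]
    split_ifs <;> norm_num
  rw [this]
  ring

/-- the variance of the sum -/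
noncomputable def VV (P : Measure Ω) (ξ : ℕ → Ω → ℕ) (s : Finset ℕ) : ℝ :=
  ∑ i ∈ s, rho P ξ i * (1 - rho P ξ i)

lemma wl1 [IsProbabilityMeasure P] (h : Ber P ξ) (s : Finset ℕ) (w : ℕ → ℝ) (hw0 : ∀ i, 0 ≤ w i)
    (hw1 : ∀ i, w i ≤ 1) :
    ∫ ω, |∑ i ∈ s, w i * (ξ i ω : ℝ) - ∑ i ∈ s, w i * rho P ξ i| ∂P ≤ Real.sqrt (VV P ξ s) := by
  have hm : ∀ i, Measurable (fun ω => w i * (ξ i ω : ℝ)) := fun i => (xi_meas h i).const_mul _
  have hE : ∫ ω, ∑ i ∈ s, w i * (ξ i ω : ℝ) ∂P = ∑ i ∈ s, w i * rho P ξ i := by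
    rw [integral_finsetSum]
    · apply sum_congr rfl
      intro i _
      rw [integral_const_mul, xi_int h i]
    · intro i _
      exact ((xi_memLp h i).integrable (by norm_num)).const_mul _
  have h1 := l1_le_sqrt_var (P := P) (fun ω => ∑ i ∈ s, w i * (ξ i ω : ℝ))
    (Finset.measurable_sum _ fun i _ => hm i) s.card (by
      intro ω
      refine (abs_sum_le_sum_abs _ _).trans ?_
      refine (sum_le_sum (g := fun _ => (1 : ℝ)) fun i _ => ?_).trans ?_
      · rw [abs_mul, abs_of_nonneg (hw0 i)]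
        calc _ ≤ (1 : ℝ) * 1 := mul_le_mul (hw1 i) (xi_bd h i ω) (abs_nonneg _) (by norm_num)
          _ = 1 := one_mul 1
      · simp)
  rw [hE] at h1
  refine h1.trans (Real.sqrt_le_sqrt ?_)
  have e : (fun ω => ∑ i ∈ s, w i * (ξ i ω : ℝ)) = ∑ i ∈ s, (fun ω => w i * (ξ i ω : ℝ)) := by
    funext ω
    rw [Finset.sum_apply]
  rw [e, IndepFun.variance_sum]
  · unfold VV
    apply sum_le_sum
    intro i _
    rw [variance_const_mul, xi_var h i]
    have h2 : 0 ≤ rho P ξ i * (1 - rho P ξ i) :=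
      mul_nonneg (rho_nonneg i) (by linarith [rho_le (P := P) (ξ := ξ) i])
    have h3 : w i ^ 2 ≤ 1 := by
      have := hw0 i
      have := hw1 i
      nlinarith
    nlinarith
  · intro i _
    exact (xi_memLp h i).const_mul _
  · intro i _ j _ hij
    exact (h.indep.indepFun hij).comp (φ := fun n : ℕ => w i * (n : ℝ))
      (ψ := fun n : ℕ => w j * (n : ℝ)) Measurable.of_discrete Measurable.of_discrete

/-- the sum over a finite set of indices -/
def X (ξ : ℕ → Ω → ℕ) (s : Finset ℕ) (ω : Ω) : ℕ := ∑ i ∈ s, ξ i ω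

lemma X_meas (h : Ber P ξ) (s : Finset ℕ) : Measurable (X ξ s) := Finset.measurable_sum _ fun i _ => h.meas i

lemma X_indep [IsProbabilityMeasure P] (h : Ber P ξ) (s : Finset ℕ) (i : ℕ) (hi : i ∉ s) :
    IndepFun (ξ i) (X ξ s) P := by
  have h1 := (h.indep.indepFun_finsetSum_of_notMem h.meas hi).symm
  have e : X ξ s = ∑ j ∈ s, ξ j := by
    funext ω
    unfold X
    rw [Finset.sum_apply]
  rw [e]
  exact h1

/-- exchanging one variable -/
lemma exch [IsProbabilityMeasure P] (h : Ber P ξ) (s : Finset ℕ) (b : ℕ → ℝ) (i : ℕ) (hi : i ∈ s) :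
    (1 - rho P ξ i) * ∫ ω, (ξ i ω : ℝ) * b (X ξ s ω) ∂P =
      rho P ξ i * ∫ ω, (1 - (ξ i ω : ℝ)) * b (X ξ s ω + 1) ∂P := by
  have hX : ∀ ω, X ξ s ω = ξ i ω + X ξ (s.erase i) ω := by
    intro ω
    unfold X
    rw [add_sum_erase s (fun j => ξ j ω) hi]
  have hind := X_indep h (s.erase i) i (notMem_erase i s)
  have h1 : ∫ ω, (ξ i ω : ℝ) * b (X ξ s ω) ∂P = rho P ξ i * ∫ ω, b (1 + X ξ (s.erase i) ω) ∂P := by
    have e1 : ∀ ω, (ξ i ω : ℝ) * b (X ξ s ω) = (ξ i ω : ℝ) * b (1 + X ξ (s.erase i) ω) := by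
      intro ω
      have := h.le i ω
      rcases Nat.eq_zero_or_pos (ξ i ω) with h0 | h0
      · rw [h0]; simp
      · have h1 : ξ i ω = 1 := by omega
        rw [hX, h1]
    simp only [e1]
    have h2 := hind.integral_fun_comp_mul_comp (f := fun n : ℕ => (n : ℝ)) (g := fun n : ℕ => b (1 + n))
      (h.meas i).aemeasurable (X_meas h _).aemeasurable Measurable.of_discrete.aestronglyMeasurable
      Measurable.of_discrete.aestronglyMeasurable
    rw [h2, xi_int h i]
  have h2 : ∫ ω, (1 - (ξ i ω : ℝ)) * b (X ξ s ω + 1) ∂P =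
      (1 - rho P ξ i) * ∫ ω, b (1 + X ξ (s.erase i) ω) ∂P := by
    have e1 : ∀ ω, (1 - (ξ i ω : ℝ)) * b (X ξ s ω + 1) = (1 - (ξ i ω : ℝ)) * b (1 + X ξ (s.erase i) ω) := by
      intro ω
      have := h.le i ω
      rcases Nat.eq_zero_or_pos (ξ i ω) with h0 | h0
      · rw [hX, h0, zero_add, add_comm]
      · have h1 : ξ i ω = 1 := by omega
        rw [h1]; simp
    simp only [e1]
    have h2 := hind.integral_fun_comp_mul_comp (f := fun n : ℕ => 1 - (n : ℝ)) (g := fun n : ℕ => b (1 + n))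
      (h.meas i).aemeasurable (X_meas h _).aemeasurable Measurable.of_discrete.aestronglyMeasurable
      Measurable.of_discrete.aestronglyMeasurable
    rw [h2]
    congr 1
    rw [integral_sub (integrable_const _) ((xi_memLp h i).integrable (by norm_num)), xi_int h i]
    simp
  rw [h1, h2]
  ring

/-- smoothing by sums of independent variables with values `0` and `1` -/
lemma smooth [IsProbabilityMeasure P] (h : Ber P ξ) (s : Finset ℕ) (b : ℕ → ℝ) (hb : ∀ n, |b n| ≤ 1)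
    (hV : 0 < VV P ξ s) :
    |∫ ω, b (X ξ s ω + 1) ∂P - ∫ ω, b (X ξ s ω) ∂P| ≤ 2 / Real.sqrt (VV P ξ s) := by
  set V := VV P ξ s with hVdef
  have hXm := X_meas h s
  have hbm : ∀ c : ℕ → ℝ, Measurable fun ω => c (X ξ s ω) := fun c =>
    (Measurable.of_discrete (f := c)).comp hXm
  have key : ∀ (w : ℕ → ℝ) (Y : Ω → ℝ) (c : ℕ → ℝ), (∀ n, |c n| ≤ 1) → Measurable Y →
      (∀ ω, |Y ω| ≤ s.card) → ∫ ω, |Y ω - V| ∂P ≤ Real.sqrt V →
      |V * ∫ ω, c (X ξ s ω) ∂P - ∫ ω, Y ω * c (X ξ s ω) ∂P| ≤ Real.sqrt V := by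
    intro w Y c hc hYm hYb hY
    have hi1 : Integrable (fun ω => c (X ξ s ω)) P :=
      Integrable.of_bound (hbm c).aestronglyMeasurable 1 (Filter.Eventually.of_forall fun ω => hc _)
    have hi2 : Integrable (fun ω => Y ω * c (X ξ s ω)) P := by
      apply Integrable.of_bound (hYm.mul (hbm c)).aestronglyMeasurable s.card
      apply Filter.Eventually.of_forall
      intro ω
      rw [Real.norm_eq_abs, Pi.mul_apply, abs_mul]
      calc _ ≤ (s.card : ℝ) * 1 := mul_le_mul (hYb ω) (hc _) (abs_nonneg _) (Nat.cast_nonneg _)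
        _ = _ := mul_one _
    rw [← integral_const_mul, ← integral_sub (hi1.const_mul V) hi2]
    refine (abs_integral_le_integral_abs).trans (le_trans ?_ hY)
    apply integral_mono
    · exact ((hi1.const_mul V).sub hi2).abs
    · exact ((Integrable.of_bound hYm.aestronglyMeasurable _ (Filter.Eventually.of_forall hYb)).sub
        (integrable_const V)).abs
    · intro ω
      simp only
      have e : V * c (X ξ s ω) - Y ω * c (X ξ s ω) = -((Y ω - V) * c (X ξ s ω)) := by ring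
      rw [e, abs_neg, abs_mul]
      calc _ ≤ |Y ω - V| * 1 := mul_le_mul_of_nonneg_left (hc _) (abs_nonneg _)
        _ = _ := mul_one _
  have hr1 : ∀ i, rho P ξ i ≤ 1 := fun i => rho_le i
  have hr0 : ∀ i, 0 ≤ rho P ξ i := fun i => rho_nonneg i
  have hcard : ∀ (f : ℕ → ℝ), (∀ i, |f i| ≤ 1) → |∑ i ∈ s, f i| ≤ s.card := by
    intro f hf
    refine (abs_sum_le_sum_abs _ _).trans ((sum_le_sum fun i _ => hf i).trans ?_)
    simp
  -- the two weights
  have hY := key (fun _ => 0) (fun ω => ∑ i ∈ s, (1 - rho P ξ i) * (ξ i ω : ℝ)) b hb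
    (Finset.measurable_sum _ fun i _ => (xi_meas h i).const_mul _) (by
      intro ω
      apply hcard
      intro i
      rw [abs_mul, abs_of_nonneg (by linarith [hr1 i])]
      calc _ ≤ (1 : ℝ) * 1 := mul_le_mul (by linarith [hr0 i]) (xi_bd h i ω) (abs_nonneg _) (by norm_num)
        _ = 1 := one_mul 1) (by
      have h1 := wl1 h s (fun i => 1 - rho P ξ i) (fun i => by linarith [hr1 i]) (fun i => by linarith [hr0 i])
      have e : ∑ i ∈ s, (1 - rho P ξ i) * rho P ξ i = V := by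
        rw [hVdef]
        unfold VV
        apply sum_congr rfl
        intro i _
        ring
      rw [e] at h1
      exact h1)
  have hZ := key (fun _ => 0) (fun ω => ∑ i ∈ s, rho P ξ i * (1 - (ξ i ω : ℝ))) (fun n => b (n + 1))
    (fun n => hb _)
    (Finset.measurable_sum _ fun i _ => (measurable_const.sub (xi_meas h i)).const_mul _) (by
      intro ω
      apply hcard
      intro i
      rw [abs_mul, abs_of_nonneg (hr0 i)]
      have h1 : |1 - (ξ i ω : ℝ)| ≤ 1 := by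
        rw [xi_real h]
        split_ifs <;> norm_num
      calc _ ≤ (1 : ℝ) * 1 := mul_le_mul (hr1 i) h1 (abs_nonneg _) (by norm_num)
        _ = 1 := one_mul 1) (by
      have h1 := wl1 h s (fun i => rho P ξ i) hr0 hr1
      refine le_trans (le_of_eq ?_) h1
      apply integral_congr_ae
      apply Filter.Eventually.of_forall
      intro ω
      simp only
      rw [← abs_neg]
      congr 1
      rw [hVdef]
      unfold VV
      rw [neg_sub, ← sum_sub_distrib, ← sum_sub_distrib]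
      apply sum_congr rfl
      intro i _
      ring)
  have hex : ∫ ω, (∑ i ∈ s, (1 - rho P ξ i) * (ξ i ω : ℝ)) * b (X ξ s ω) ∂P =
      ∫ ω, (∑ i ∈ s, rho P ξ i * (1 - (ξ i ω : ℝ))) * b (X ξ s ω + 1) ∂P := by
    simp only [sum_mul]
    rw [integral_finsetSum, integral_finsetSum]
    · apply sum_congr rfl
      intro i hi
      have := exch h s b i hi
      simp only [mul_assoc]
      rw [integral_const_mul, integral_const_mul]
      exact this
    · intro i _
      apply Integrable.of_bound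
        (((measurable_const.sub (xi_meas h i)).const_mul _).mul (hbm (fun n => b (n + 1)))).aestronglyMeasurable 1
      apply Filter.Eventually.of_forall
      intro ω
      rw [Real.norm_eq_abs, Pi.mul_apply, abs_mul, abs_mul, abs_of_nonneg (hr0 i)]
      have h1 : |1 - (ξ i ω : ℝ)| ≤ 1 := by
        rw [xi_real h]
        split_ifs <;> norm_num
      have h2 : rho P ξ i * |1 - (ξ i ω : ℝ)| ≤ 1 := by
        calc _ ≤ (1 : ℝ) * 1 := mul_le_mul (hr1 i) h1 (abs_nonneg _) (by norm_num)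
          _ = 1 := one_mul 1
      calc _ ≤ (1 : ℝ) * 1 := mul_le_mul h2 (hb _) (abs_nonneg _) (by norm_num)
        _ = 1 := one_mul 1
    · intro i _
      apply Integrable.of_bound
        (((xi_meas h i).const_mul _).mul (hbm b)).aestronglyMeasurable 1
      apply Filter.Eventually.of_forall
      intro ω
      rw [Real.norm_eq_abs, Pi.mul_apply, abs_mul, abs_mul, abs_of_nonneg (by linarith [hr1 i] : 0 ≤ 1 - rho P ξ i)]
      have h2 : (1 - rho P ξ i) * |(ξ i ω : ℝ)| ≤ 1 := by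
        calc _ ≤ (1 : ℝ) * 1 := mul_le_mul (by linarith [hr0 i]) (xi_bd h i ω) (abs_nonneg _) (by norm_num)
          _ = 1 := one_mul 1
      calc _ ≤ (1 : ℝ) * 1 := mul_le_mul h2 (hb _) (abs_nonneg _) (by norm_num)
        _ = 1 := one_mul 1
  rw [← hex] at hZ
  have hs : 0 < Real.sqrt V := Real.sqrt_pos.2 hV
  have h3 : V * |∫ ω, b (X ξ s ω + 1) ∂P - ∫ ω, b (X ξ s ω) ∂P| ≤ 2 * Real.sqrt V := by
    rw [← abs_of_pos hV, ← abs_mul, abs_of_pos hV, mul_sub]
    have e : V * ∫ ω, b (X ξ s ω + 1) ∂P - V * ∫ ω, b (X ξ s ω) ∂P =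
        (V * ∫ ω, b (X ξ s ω + 1) ∂P - ∫ ω, (∑ i ∈ s, (1 - rho P ξ i) * (ξ i ω : ℝ)) * b (X ξ s ω) ∂P) -
        (V * ∫ ω, b (X ξ s ω) ∂P - ∫ ω, (∑ i ∈ s, (1 - rho P ξ i) * (ξ i ω : ℝ)) * b (X ξ s ω) ∂P) := by ring
    rw [e]
    refine (abs_sub _ _).trans ?_
    linarith
  rw [le_div_iff₀ hs]
  have hss : Real.sqrt V * Real.sqrt V = V := Real.mul_self_sqrt hV.le
  have h4 : Real.sqrt V * (|∫ ω, b (X ξ s ω + 1) ∂P - ∫ ω, b (X ξ s ω) ∂P| * Real.sqrt V) ≤ Real.sqrt V * 2 := by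
    calc _ = (Real.sqrt V * Real.sqrt V) * |∫ ω, b (X ξ s ω + 1) ∂P - ∫ ω, b (X ξ s ω) ∂P| := by ring
      _ ≤ _ := by rw [hss]; linarith
  exact le_of_mul_le_mul_left h4 hs

end Pool.Agent.D0H24.IP
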