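import Pool.Agent.D0H24.IP.Poi

/-!
# One window
-/

set_option autoImplicit false

namespace Pool.Agent.D0H24.IP

open MeasureTheory ProbabilityTheory Finset

set_option linter.unusedSectionVars false
set_option linter.unusedVariables false

lemma ivt (f : ℕ → ℕ) (hf : ∀ t, f (t + 1) ≤ f t + 1) (y k c : ℕ) (h1 : f y ≤ c) (h2 : c < f (y + k)) :
    ∃ t, y ≤ t ∧ t < y + k ∧ f t = c := by
  induction k with
  | zero =>
    rw [add_zero] at h2
    omega
  | succ k ih =>
    by_cases h3 : c < f (y + k)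
    · obtain ⟨t, a, b, e⟩ := ih h3
      exact ⟨t, a, by omega, e⟩
    · have h4 := hf (y + k)
      have e : y + (k + 1) = y + k + 1 := by ring
      rw [e] at h2
      exact ⟨y + k, by omega, by omega, by omega⟩

open Classical in
/-- the number of visits in a set with small gaps -/
lemma visits (f : ℕ → ℕ) (hf : ∀ t, f (t + 1) ≤ f t + 1) (C : Set ℕ) (H y k : ℕ) (hH : 1 ≤ H) (hy : 1 ≤ f y)
    (hC : ∀ z, f y ≤ z + 1 → z + 1 ≤ f (y + k) → ∃ c ∈ C, z < c ∧ c ≤ z + H) :
    (f (y + k) - f y) / H ≤ ((Ico y (y + k)).filter (fun t => f t ∈ C)).card := by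
  set n := (f (y + k) - f y) / H with hn
  have hnH : n * H ≤ f (y + k) - f y := Nat.div_mul_le_self _ _
  have hex : ∀ j ∈ range n, ∃ t ∈ (Ico y (y + k)).filter (fun t => f t ∈ C),
      f y + j * H ≤ f t ∧ f t < f y + (j + 1) * H := by
    intro j hj
    rw [mem_range] at hj
    have h1 : (j + 1) * H ≤ n * H := Nat.mul_le_mul_right _ hj
    have h2 : (j + 1) * H = j * H + H := by ring
    obtain ⟨c, hc, hc1, hc2⟩ := hC (f y + j * H - 1) (by omega) (by omega)
    obtain ⟨t, ht1, ht2, ht3⟩ := ivt f hf y k c (by omega) (by omega)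
    refine ⟨t, ?_, ?_, ?_⟩
    · rw [mem_filter, mem_Ico, ht3]
      exact ⟨⟨ht1, ht2⟩, hc⟩
    · rw [ht3]; omega
    · rw [ht3]; omega
  choose! g hg1 hg2 hg3 using hex
  calc n = (range n).card := (card_range n).symm
    _ ≤ _ := by
      apply card_le_card_of_injOn g (fun j hj => hg1 j hj)
      intro i hi j hj hij
      have h1 := hg2 i hi
      have h2 := hg3 i hi
      have h3 := hg2 j hj
      have h4 := hg3 j hj
      rw [hij] at h1 h2
      by_contra hne
      rcases Nat.lt_or_gt_of_ne hne with h | h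
      · have : (i + 1) * H ≤ j * H := Nat.mul_le_mul_right _ h
        omega
      · have : (j + 1) * H ≤ i * H := Nat.mul_le_mul_right _ h
        omega

variable {Ω : Type*} [m0 : MeasurableSpace Ω] {P : Measure Ω} {ξ : ℕ → Ω → ℕ}

open Classical in
/-- the indicator of `C`, shifted -/
noncomputable def bC (C : Set ℕ) (m n : ℕ) : ℝ := if m + n + 1 ∈ C then 1 else 0

lemma bC_bd (C : Set ℕ) (m n : ℕ) : |bC C m n| ≤ 1 := by
  unfold bC
  split_ifs <;> simp

lemma bC_nonneg (C : Set ℕ) (m n : ℕ) : 0 ≤ bC C m n := by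
  unfold bC
  split_ifs <;> norm_num

/-- the probability of being in `C` -/
noncomputable def qq (P : Measure Ω) (ξ : ℕ → Ω → ℕ) (C : Set ℕ) (m x t : ℕ) : ℝ :=
  ∫ ω, bC C m (X ξ (Ico x t) ω) ∂P

lemma b_int [IsProbabilityMeasure P] (h : Ber P ξ) (C : Set ℕ) (m : ℕ) (s : Finset ℕ) :
    Integrable (fun ω => bC C m (X ξ s ω)) P :=
  Integrable.of_bound ((Measurable.of_discrete (f := fun n : ℕ => bC C m n)).comp (X_meas h s)).aestronglyMeasurable 1
    (Filter.Eventually.of_forall fun ω => bC_bd C m _)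

lemma X_succ (x t : ℕ) (hxt : x ≤ t) (ω : Ω) : X ξ (Ico x (t + 1)) ω = X ξ (Ico x t) ω + ξ t ω := by
  unfold X
  rw [sum_Ico_succ_top hxt]

lemma q_lip [IsProbabilityMeasure P] (h : Ber P ξ) (C : Set ℕ) (m x t : ℕ) (hxt : x ≤ t)
    (hV : 0 < VV P ξ (Ico x t)) :
    |qq P ξ C m x (t + 1) - qq P ξ C m x t| ≤ 2 / Real.sqrt (VV P ξ (Ico x t)) := by
  have hX : ∀ ω, bC C m (X ξ (Ico x (t + 1)) ω) - bC C m (X ξ (Ico x t) ω) =
      (ξ t ω : ℝ) * (bC C m (X ξ (Ico x t) ω + 1) - bC C m (X ξ (Ico x t) ω)) := by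
    intro ω
    rw [X_succ x t hxt]
    have := h.le t ω
    rcases Nat.eq_zero_or_pos (ξ t ω) with h0 | h0
    · rw [h0]; simp
    · have h1 : ξ t ω = 1 := by omega
      rw [h1]; simp
  have hind := X_indep h (Ico x t) t (by rw [mem_Ico]; omega)
  have h1 : qq P ξ C m x (t + 1) - qq P ξ C m x t = rho P ξ t *
      (∫ ω, bC C m (X ξ (Ico x t) ω + 1) ∂P - ∫ ω, bC C m (X ξ (Ico x t) ω) ∂P) := by
    unfold qq
    rw [← integral_sub (b_int h C m _) (b_int h C m _)]
    simp only [hX]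
    have h2 := hind.integral_fun_comp_mul_comp (f := fun n : ℕ => (n : ℝ))
      (g := fun n : ℕ => bC C m (n + 1) - bC C m n)
      (h.meas t).aemeasurable (X_meas h _).aemeasurable Measurable.of_discrete.aestronglyMeasurable
      Measurable.of_discrete.aestronglyMeasurable
    rw [h2, xi_int h t]
    congr 1
    rw [integral_sub _ (b_int h C m _)]
    exact Integrable.of_bound ((Measurable.of_discrete (f := fun n : ℕ => bC C m (n + 1))).comp
      (X_meas h _)).aestronglyMeasurable 1 (Filter.Eventually.of_forall fun ω => bC_bd C m _)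
  rw [h1, abs_mul, abs_of_nonneg (rho_nonneg t)]
  have h2 := smooth h (Ico x t) (bC C m) (bC_bd C m) hV
  calc _ ≤ 1 * _ := mul_le_mul (rho_le t) h2 (abs_nonneg _) (by norm_num)
    _ = _ := one_mul _

lemma VV_mono [IsProbabilityMeasure P] {s t : Finset ℕ} (hst : s ⊆ t) : VV P ξ s ≤ VV P ξ t := by
  unfold VV
  apply sum_le_sum_of_subset_of_nonneg hst
  intro i _ _
  exact mul_nonneg (rho_nonneg i) (by linarith [rho_le (P := P) (ξ := ξ) i])

/-- the probability of success in a window -/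
theorem one [IsProbabilityMeasure P] (h : Ber P ξ) (x k m : ℕ) (C D : Set ℕ) (lam : ℝ) (HC HD : ℕ)
    (hlam : 0 < lam) (hHC : 1 ≤ HC)
    (h1 : lam * k ≤ ∑ i ∈ Ico x (x + k), rho P ξ i)
    (h2 : lam * k ≤ ∑ i ∈ Ico (x + k) (x + 2 * k), rho P ξ i)
    (h3 : ∀ i ∈ Ico x (x + k), rho P ξ i ≤ 1 / 2)
    (hC : ∀ z, m ≤ z → z ≤ m + 2 * k → ∃ c ∈ C, z < c ∧ c ≤ z + HC)
    (hD : ∀ y, x + k ≤ y → y < x + 2 * k → ∃ t ∈ D, y ≤ t ∧ t < y + HD ∧ lam ≤ rho P ξ t)
    (hk1 : 2 * (HC : ℝ) ≤ lam * k) (hk2 : 128 * (HC : ℝ) ^ 2 * (HD : ℝ) ^ 2 ≤ lam ^ 3 * k) :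
    lam ^ 2 / (4 * HC) ≤ P.real {ω | ∃ t, x ≤ t ∧ t < x + (2 * k + HD) ∧ t ∈ D ∧ ξ t ω = 1 ∧
      m + X ξ (Ico x t) ω + 1 ∈ C} := by
  classical
  have hHC0 : (0 : ℝ) < HC := by exact_mod_cast hHC
  have hlk : 0 < lam * k := by linarith
  have hk0 : (0 : ℝ) < k := by
    by_contra hc
    have : (k : ℝ) = 0 := le_antisymm (not_lt.1 hc) (Nat.cast_nonneg _)
    rw [this, mul_zero] at hlk
    exact lt_irrefl _ hlk
  -- the sum of the probabilities
  have hsum : lam * k / (2 * HC) ≤ ∑ t ∈ Ico (x + k) (x + 2 * k), qq P ξ C m x t := by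
    have hpt : ∀ ω, (X ξ (Ico (x + k) (x + 2 * k)) ω : ℝ) / HC - 1 ≤
        ∑ t ∈ Ico (x + k) (x + 2 * k), bC C m (X ξ (Ico x t) ω) := by
      intro ω
      set f : ℕ → ℕ := fun t => m + X ξ (Ico x t) ω + 1 with hf
      have hstep : ∀ t, f (t + 1) ≤ f t + 1 := by
        intro t
        rw [hf]
        simp only
        by_cases hxt : x ≤ t
        · rw [X_succ x t hxt]
          have := h.le t ω
          omega
        · have e1 : Ico x (t + 1) = ∅ := Ico_eq_empty (by omega)
          have e2 : Ico x t = ∅ := Ico_eq_empty (by omega)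
          rw [e1, e2]
          omega
      have hbd : ∀ t, X ξ (Ico x t) ω ≤ t - x := by
        intro t
        unfold X
        calc ∑ i ∈ Ico x t, ξ i ω ≤ ∑ i ∈ Ico x t, 1 := sum_le_sum fun i _ => h.le i ω
          _ = t - x := by simp
      have hv := visits f hstep C HC (x + k) k hHC (by rw [hf]; simp) (by
        intro z hz1 hz2
        apply hC z
        · rw [hf] at hz1
          simp only at hz1
          omega
        · rw [hf] at hz2
          simp only at hz2
          have := hbd (x + k + k)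
          omega)
      have e1 : x + k + k = x + 2 * k := by ring
      rw [e1] at hv
      have e2 : f (x + 2 * k) - f (x + k) = X ξ (Ico (x + k) (x + 2 * k)) ω := by
        rw [hf]
        simp only
        have : X ξ (Ico x (x + 2 * k)) ω = X ξ (Ico x (x + k)) ω + X ξ (Ico (x + k) (x + 2 * k)) ω := by
          unfold X
          rw [← sum_Ico_consecutive _ (by omega : x ≤ x + k) (by omega : x + k ≤ x + 2 * k)]
        omega
      rw [e2] at hv
      have e3 : ∑ t ∈ Ico (x + k) (x + 2 * k), bC C m (X ξ (Ico x t) ω) =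
          (((Ico (x + k) (x + 2 * k)).filter (fun t => f t ∈ C)).card : ℝ) := by
        unfold bC
        rw [← sum_filter, sum_const, nsmul_eq_mul, mul_one]
      rw [e3]
      have h4 : (X ξ (Ico (x + k) (x + 2 * k)) ω : ℝ) / HC - 1 ≤ ((X ξ (Ico (x + k) (x + 2 * k)) ω / HC : ℕ) : ℝ) := by
        have h5 := Nat.div_add_mod (X ξ (Ico (x + k) (x + 2 * k)) ω) HC
        have h6 := Nat.mod_lt (X ξ (Ico (x + k) (x + 2 * k)) ω) hHC
        rw [sub_le_iff_le_add, div_le_iff₀ hHC0]
        have h7 : (X ξ (Ico (x + k) (x + 2 * k)) ω : ℝ) = HC * ((X ξ (Ico (x + k) (x + 2 * k)) ω / HC : ℕ) : ℝ) +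
            ((X ξ (Ico (x + k) (x + 2 * k)) ω % HC : ℕ) : ℝ) := by exact_mod_cast h5.symm
        have h8 : ((X ξ (Ico (x + k) (x + 2 * k)) ω % HC : ℕ) : ℝ) ≤ HC := by exact_mod_cast h6.le
        rw [h7]
        nlinarith
      exact h4.trans (by exact_mod_cast hv)
    have hXr : ∀ ω, (X ξ (Ico (x + k) (x + 2 * k)) ω : ℝ) = ∑ i ∈ Ico (x + k) (x + 2 * k), (ξ i ω : ℝ) := by
      intro ω
      unfold X
      push_cast
      rfl
    have hXint : Integrable (fun ω => (X ξ (Ico (x + k) (x + 2 * k)) ω : ℝ)) P := by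
      simp only [hXr]
      exact integrable_finsetSum _ fun i _ => (xi_memLp h i).integrable (by norm_num)
    have hXE : ∫ ω, (X ξ (Ico (x + k) (x + 2 * k)) ω : ℝ) ∂P = ∑ i ∈ Ico (x + k) (x + 2 * k), rho P ξ i := by
      simp only [hXr]
      rw [integral_finsetSum]
      · simp only [xi_int h]
      · intro i _
        exact (xi_memLp h i).integrable (by norm_num)
    unfold qq
    rw [← integral_finsetSum _ (fun t _ => b_int h C m _)]
    calc lam * k / (2 * HC) ≤ lam * k / HC - 1 := by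
          rw [le_sub_iff_add_le, div_add_one (by positivity), div_le_div_iff₀ (by positivity) hHC0]
          nlinarith
      _ ≤ (∫ ω, (X ξ (Ico (x + k) (x + 2 * k)) ω : ℝ) ∂P) / HC - 1 := by
          rw [hXE]
          have : lam * k / HC ≤ (∑ i ∈ Ico (x + k) (x + 2 * k), rho P ξ i) / HC :=
            div_le_div_of_nonneg_right h2 hHC0.le
          linarith
      _ = ∫ ω, ((X ξ (Ico (x + k) (x + 2 * k)) ω : ℝ) / HC - 1) ∂P := by
          rw [integral_sub (hXint.div_const _) (integrable_const _), integral_div]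
          simp
      _ ≤ _ := by
          apply integral_mono
          · exact (hXint.div_const _).sub (integrable_const _)
          · exact integrable_finsetSum _ fun t _ => b_int h C m _
          · exact hpt
  -- a large term
  obtain ⟨t₀, ht₀, hq0⟩ : ∃ t₀ ∈ Ico (x + k) (x + 2 * k), lam / (2 * HC) ≤ qq P ξ C m x t₀ := by
    by_contra hcon
    push Not at hcon
    have hne : (Ico (x + k) (x + 2 * k)).Nonempty := by
      rw [nonempty_Ico]
      have : 0 < k := by exact_mod_cast hk0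
      omega
    have h4 := sum_lt_sum_of_nonempty hne hcon
    rw [sum_const, Nat.card_Ico, nsmul_eq_mul] at h4
    have e : x + 2 * k - (x + k) = k := by omega
    rw [e] at h4
    have e2 : (k : ℝ) * (lam / (2 * HC)) = lam * k / (2 * HC) := by ring
    rw [e2] at h4
    linarith
  rw [mem_Ico] at ht₀
  obtain ⟨t₁, ht₁D, ht₁a, ht₁b, ht₁r⟩ := hD t₀ ht₀.1 ht₀.2
  -- the variance
  have hV0 : lam * k / 2 ≤ VV P ξ (Ico x (x + k)) := by
    have : (∑ i ∈ Ico x (x + k), rho P ξ i) / 2 ≤ VV P ξ (Ico x (x + k)) := by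
      unfold VV
      rw [sum_div]
      apply sum_le_sum
      intro i hi
      have h5 := h3 i hi
      have h6 := rho_nonneg (P := P) (ξ := ξ) i
      nlinarith
    linarith
  have hlip : ∀ j : ℕ, qq P ξ C m x t₀ - j * (2 / Real.sqrt (lam * k / 2)) ≤ qq P ξ C m x (t₀ + j) := by
    intro j
    induction j with
    | zero => simp
    | succ j ih =>
      have hsub : Ico x (x + k) ⊆ Ico x (t₀ + j) := Ico_subset_Ico_right (by omega)
      have h4 : lam * k / 2 ≤ VV P ξ (Ico x (t₀ + j)) := hV0.trans (VV_mono hsub)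
      have h5 := q_lip h C m x (t₀ + j) (by omega) (lt_of_lt_of_le (by linarith) h4)
      have h6 : 2 / Real.sqrt (VV P ξ (Ico x (t₀ + j))) ≤ 2 / Real.sqrt (lam * k / 2) := by
        apply div_le_div_of_nonneg_left (by norm_num) (Real.sqrt_pos.2 (by linarith))
        exact Real.sqrt_le_sqrt h4
      have h7 := (abs_le.1 (h5.trans h6)).1
      rw [← add_assoc]
      push_cast
      linarith
  obtain ⟨j, hj, rfl⟩ : ∃ j, j < HD ∧ t₁ = t₀ + j := ⟨t₁ - t₀, by omega, by omega⟩
  have hHD0 : (0 : ℝ) ≤ HD := Nat.cast_nonneg _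
  have hsqrt : 8 * (HD : ℝ) * HC / lam ≤ Real.sqrt (lam * k / 2) := by
    apply Real.le_sqrt_of_sq_le
    rw [div_pow, div_le_iff₀ (by positivity)]
    nlinarith
  have hq1 : lam / (4 * HC) ≤ qq P ξ C m x (t₀ + j) := by
    have h4 := hlip j
    have h5 : (j : ℝ) * (2 / Real.sqrt (lam * k / 2)) ≤ lam / (4 * HC) := by
      have hs0 : 0 < Real.sqrt (lam * k / 2) := Real.sqrt_pos.2 (by linarith)
      have hjH : (j : ℝ) ≤ HD := by exact_mod_cast hj.le
      rw [mul_div_assoc', div_le_div_iff₀ hs0 (by positivity)]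
      rw [div_le_iff₀ hlam] at hsqrt
      calc (j : ℝ) * 2 * (4 * HC) ≤ HD * 2 * (4 * HC) := by
            apply mul_le_mul_of_nonneg_right _ (by positivity)
            linarith
        _ = 8 * HD * HC := by ring
        _ ≤ Real.sqrt (lam * k / 2) * lam := hsqrt
        _ = _ := mul_comm _ _
    have h6 : lam / (2 * HC) = lam / (4 * HC) + lam / (4 * HC) := by
      field_simp
      ring
    linarith
  -- success at `t₁`
  have hsucc : rho P ξ (t₀ + j) * qq P ξ C m x (t₀ + j) =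
      P.real {ω | ξ (t₀ + j) ω = 1 ∧ m + X ξ (Ico x (t₀ + j)) ω + 1 ∈ C} := by
    have hind := X_indep h (Ico x (t₀ + j)) (t₀ + j) (by rw [mem_Ico]; omega)
    have h4 := hind.integral_fun_comp_mul_comp (f := fun n : ℕ => (n : ℝ)) (g := fun n : ℕ => bC C m n)
      (h.meas (t₀ + j)).aemeasurable (X_meas h _).aemeasurable Measurable.of_discrete.aestronglyMeasurable
      Measurable.of_discrete.aestronglyMeasurable
    rw [xi_int h] at h4
    unfold qq
    rw [← h4]
    have hs : MeasurableSet {ω | ξ (t₀ + j) ω = 1 ∧ m + X ξ (Ico x (t₀ + j)) ω + 1 ∈ C} := by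
      have a1 : MeasurableSet {ω | ξ (t₀ + j) ω = 1} := h.meas _ (measurableSet_singleton 1)
      have a2 : MeasurableSet {ω | m + X ξ (Ico x (t₀ + j)) ω + 1 ∈ C} :=
        (X_meas h (Ico x (t₀ + j))) (MeasurableSet.of_discrete (s := {n : ℕ | m + n + 1 ∈ C}))
      exact a1.inter a2
    have e : (fun ω => (ξ (t₀ + j) ω : ℝ) * bC C m (X ξ (Ico x (t₀ + j)) ω)) =
        Set.indicator {ω | ξ (t₀ + j) ω = 1 ∧ m + X ξ (Ico x (t₀ + j)) ω + 1 ∈ C} (fun _ => (1 : ℝ)) := by
      funext ω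
      rw [xi_real h]
      unfold bC
      rw [Set.indicator_apply]
      simp only [Set.mem_ofPred_eq]
      by_cases a1 : ξ (t₀ + j) ω = 1
      · by_cases a2 : m + X ξ (Ico x (t₀ + j)) ω + 1 ∈ C
        · rw [if_pos a1, if_pos a2, if_pos ⟨a1, a2⟩, one_mul]
        · simp [a1, a2]
      · simp [a1]
    rw [e, integral_indicator_const _ hs]
    simp
  calc lam ^ 2 / (4 * HC) = lam * (lam / (4 * HC)) := by ring
    _ ≤ rho P ξ (t₀ + j) * qq P ξ C m x (t₀ + j) := mul_le_mul ht₁r hq1 (by positivity) (rho_nonneg _)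
    _ = _ := hsucc
    _ ≤ _ := by
      apply measureReal_mono _ (measure_ne_top _ _)
      intro ω hω
      exact ⟨t₀ + j, by omega, by omega, ht₁D, hω.1, hω.2⟩

end Pool.Agent.D0H24.IP
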